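import Pool.Agent.Helper27.Melzak.Defs

/-!
Volume of a thin slab of small diameter.
-/

open MeasureTheory Set Filter Topology
open scoped ENNReal InnerProductSpace

namespace Melzak

lemma exists_basis_first {ν : E 3} (hν : ‖ν‖ = 1) :
    ∃ b : OrthonormalBasis (Fin 3) ℝ (E 3), b 0 = ν := by
  have hv : Orthonormal ℝ (({0} : Set (Fin 3)).domRestrict (fun _ => ν)) := by
    refine ⟨fun i => hν, fun i j hij => ?_⟩
    exact absurd (Subsingleton.elim i j) hij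
  obtain ⟨b, hb⟩ := hv.exists_orthonormalBasis_extension_of_card_eq (by simp)
  exact ⟨b, hb 0 (mem_singleton 0)⟩

lemma volume_slab {ν : E 3} (hν : ‖ν‖ = 1) {S : Set (E 3)} {q δ ρ : ℝ} (hδ : 0 ≤ δ) (hρ : 0 ≤ ρ)
    (h1 : ∀ x ∈ S, q - δ ≤ ⟪ν, x⟫_ℝ) (h2 : ∀ x ∈ S, ⟪ν, x⟫_ℝ ≤ q)
    (h3 : ∀ x ∈ S, ∀ y ∈ S, dist x y ≤ ρ) :
    volume S ≤ ENNReal.ofReal (δ * ρ ^ 2) := by
  rcases S.eq_empty_or_nonempty with rfl | ⟨x0, hx0⟩
  · simp
  obtain ⟨b, hb⟩ := exists_basis_first hν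
  -- the lower bounds of the coordinates
  have hdist : ∀ i, ∀ x ∈ S, ∀ y ∈ S, ⟪b i, x⟫_ℝ ≤ ⟪b i, y⟫_ℝ + ρ := by
    intro i x hx y hy
    have h4 : ⟪b i, x - y⟫_ℝ ≤ ‖b i‖ * ‖x - y‖ := real_inner_le_norm _ _
    rw [b.norm_eq_one, one_mul, inner_sub_right, ← dist_eq_norm] at h4
    linarith [h3 x hx y hy]
  set lo : Fin 3 → ℝ := fun i => sInf ((fun x => ⟪b i, x⟫_ℝ) '' S) with hlo
  have hbdd : ∀ i, BddBelow ((fun x => ⟪b i, x⟫_ℝ) '' S) := by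
    intro i
    refine ⟨⟪b i, x0⟫_ℝ - ρ, ?_⟩
    rintro _ ⟨y, hy, rfl⟩
    have := hdist i x0 hx0 y hy
    simp only
    linarith
  have hlo1 : ∀ i, ∀ x ∈ S, lo i ≤ ⟪b i, x⟫_ℝ := fun i x hx => csInf_le (hbdd i) ⟨x, hx, rfl⟩
  have hlo2 : ∀ i, ∀ x ∈ S, ⟪b i, x⟫_ℝ ≤ lo i + ρ := by
    intro i x hx
    have : ⟪b i, x⟫_ℝ - ρ ≤ lo i := by
      apply le_csInf (Set.Nonempty.image _ ⟨x0, hx0⟩)
      rintro _ ⟨y, hy, rfl⟩
      have := hdist i x hx y hy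
      simp only
      linarith
    linarith
  set A : Fin 3 → ℝ := ![q - δ, lo 1, lo 2] with hA
  set B : Fin 3 → ℝ := ![q, lo 1 + ρ, lo 2 + ρ] with hB
  have hsub : S ⊆ b.repr ⁻¹' ((WithLp.ofLp : E 3 → (Fin 3 → ℝ)) ⁻¹' (Set.pi univ fun i => Icc (A i) (B i))) := by
    intro x hx
    simp only [mem_preimage, mem_univ_pi]
    intro i
    rw [b.repr_apply_apply]
    fin_cases i
    · simp only [hA, hB, Fin.zero_eta, Matrix.cons_val_zero]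
      rw [hb]
      exact ⟨h1 x hx, h2 x hx⟩
    · exact ⟨hlo1 1 x hx, hlo2 1 x hx⟩
    · exact ⟨hlo1 2 x hx, hlo2 2 x hx⟩
  refine (measure_mono hsub).trans (le_of_eq ?_)
  have hms : MeasurableSet (Set.pi univ fun i => Icc (A i) (B i)) :=
    MeasurableSet.univ_pi fun i => measurableSet_Icc
  rw [b.measurePreserving_repr.measure_preimage
    ((PiLp.volume_preserving_ofLp (Fin 3)).measurable hms).nullMeasurableSet,
    (PiLp.volume_preserving_ofLp (Fin 3)).measure_preimage hms.nullMeasurableSet,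
    volume_pi_pi, Fin.prod_univ_three]
  have e0 : B 0 - A 0 = δ := by simp [hA, hB]
  have e1 : B 1 - A 1 = ρ := by simp [hA, hB]
  have e2 : B 2 - A 2 = ρ := by simp [hA, hB]
  rw [Real.volume_Icc, Real.volume_Icc, Real.volume_Icc, e0, e1, e2, ← ENNReal.ofReal_mul hδ,
    ← ENNReal.ofReal_mul (mul_nonneg hδ hρ)]
  congr 1
  ring

end Melzak
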