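import Pool.Agent.Helper27.Melzak.Key
import Pool.Agent.Helper27.Melzak.ChooseQ

/-!
A maximiser has a bounded number of facets.
-/

open MeasureTheory Set Filter Topology
open scoped ENNReal InnerProductSpace

namespace Melzak

variable {ι : Type*}

lemma card_le [Fintype ι] {n : ι → E 3} {h : ι → ℝ} (hg : Good n h)
    (hmax : ∀ h' : ι → ℝ, Good n h' → rat n h' ≤ rat n h) :
    3 * (Fintype.card ι : ℝ≥0∞) * volume (Poly n h) ≤ zeta 1 (Poly n h) ^ 3 := by
  classical
  rcases Nat.eq_zero_or_pos (Fintype.card ι) with h0 | hm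
  · rw [h0]; simp
  have hLtop := hg.zeta_one_ne_top
  have hL0 := hg.zeta_one_ne_zero
  have hVfin : volume (Poly n h) ≠ ∞ := hg.bdd.measure_lt_top.ne
  have hVpos := hg.volume_pos
  set L : ℝ := (zeta 1 (Poly n h)).toReal with hL
  set V : ℝ := (volume (Poly n h)).toReal with hV
  have hLp : 0 < L := ENNReal.toReal_pos hL0 hLtop
  have hVp : 0 < V := ENNReal.toReal_pos hVpos hVfin
  have hmp : (0 : ℝ) < Fintype.card ι := by exact_mod_cast hm
  set m : ℝ := (Fintype.card ι : ℝ) with hmdef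
  set D : ℝ := L / 3 with hD
  have hDp : 0 < D := by positivity
  have hdiam : ∀ x ∈ Poly n h, ∀ y ∈ Poly n h, dist x y ≤ D := by
    intro x hx y hy
    have h1 := hg.diam_le hx hy
    have h2 := ENNReal.toReal_mono hLtop h1
    rw [ENNReal.toReal_mul, ← dist_edist] at h2
    norm_num at h2
    rw [hD]
    linarith
  -- the key estimate for every `θ < 1`
  have hkey : ∀ θ : ℝ, 0 < θ → θ < 1 → 3 * m * (θ * V) ≤ L ^ 3 := by
    intro θ hθ0 hθ1
    set β : ℝ := θ * V / (m * D) with hβ
    have hβp : 0 < β := by positivity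
    have hVc : ENNReal.ofReal (β * (Fintype.card ι * D)) < volume (Poly n h) := by
      rw [ENNReal.ofReal_lt_iff_lt_toReal (by positivity) hVfin]
      have e : β * (Fintype.card ι * D) = θ * V := by
        rw [hβ, ← hmdef]
        field_simp
      rw [e]
      have := mul_lt_mul_of_pos_right hθ1 hVp
      linarith
    obtain ⟨q, hq, hfac⟩ := choose_q hg hDp hdiam hβp hVc
    have hne : ∀ i, (Fac n q i).Nonempty := fun i => by
      obtain ⟨x, hx, _⟩ := hfac i
      exact ⟨x, hx⟩
    have hk := key hg hmax hq hne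
    rw [← hg.zeta_one] at hk
    -- each facet is long
    have hlong : ∀ i, cst * ENNReal.ofReal (√β) ≤ MM (Fac n q i) := by
      intro i
      obtain ⟨x, hx, y, hy, hxy⟩ := hfac i
      have hseg : segment ℝ x y ⊆ Fac n q i := (key_convex_fac n q i).segment_subset hx hy
      refine le_trans ?_ (MM_mono hseg)
      rw [MM_segment, edist_dist]
      gcongr
    have hsum : (Fintype.card ι : ℝ≥0∞) * (cst * ENNReal.ofReal (√β)) ≤ cst * zeta 1 (Poly n h) := by
      refine le_trans ?_ hk
      rw [← nsmul_eq_mul]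
      exact Finset.card_nsmul_le_sum _ _ _ (fun i _ => hlong i)
    have h1 : (Fintype.card ι : ℝ≥0∞) * ENNReal.ofReal (√β) ≤ zeta 1 (Poly n h) := by
      have e : (Fintype.card ι : ℝ≥0∞) * (cst * ENNReal.ofReal (√β))
          = cst * ((Fintype.card ι : ℝ≥0∞) * ENNReal.ofReal (√β)) := by ring
      rw [e] at hsum
      exact (ENNReal.mul_le_mul_iff_right cst_ne_zero cst_ne_top).mp hsum
    have h2 : m * √β ≤ L := by
      have h3 := ENNReal.toReal_mono hLtop h1
      rwa [ENNReal.toReal_mul, ENNReal.toReal_natCast, ENNReal.toReal_ofReal (Real.sqrt_nonneg _)] at h3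
    have h3 : m ^ 2 * β ≤ L ^ 2 := by
      have h4 : (m * √β) ^ 2 ≤ L ^ 2 := pow_le_pow_left₀ (by positivity) h2 2
      rwa [mul_pow, Real.sq_sqrt hβp.le] at h4
    have h5 : m ^ 2 * β = 3 * m * (θ * V) / L := by
      rw [hβ, hD]
      field_simp
    rw [h5, div_le_iff₀ hLp] at h3
    calc 3 * m * (θ * V) ≤ L ^ 2 * L := h3
      _ = L ^ 3 := by ring
  -- let `θ → 1`
  have hfin : 3 * m * V ≤ L ^ 3 := by
    by_contra hcon
    push Not at hcon
    have hpos : 0 < 3 * m * V := by positivity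
    have hL3 : 0 < L ^ 3 := by positivity
    set θ : ℝ := (L ^ 3 / (3 * m * V) + 1) / 2 with hθ
    have hr : L ^ 3 / (3 * m * V) < 1 := by rw [div_lt_one hpos]; exact hcon
    have hr0 : 0 < L ^ 3 / (3 * m * V) := by positivity
    have h1 := hkey θ (by rw [hθ]; linarith) (by rw [hθ]; linarith)
    have h2 : L ^ 3 / (3 * m * V) < θ := by rw [hθ]; linarith
    rw [div_lt_iff₀ hpos] at h2
    nlinarith
  -- back to extended reals
  have hc : (3 * (Fintype.card ι : ℝ≥0∞) * volume (Poly n h)) ≠ ∞ :=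
    ENNReal.mul_ne_top (ENNReal.mul_ne_top (by norm_num) (ENNReal.natCast_ne_top _)) hVfin
  rw [← ENNReal.toReal_le_toReal hc (ENNReal.pow_ne_top hLtop), ENNReal.toReal_mul,
    ENNReal.toReal_mul, ENNReal.toReal_pow, ENNReal.toReal_natCast]
  norm_num
  exact hfin

end Melzak
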