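import Pool.Agent.Helper27.Melzak.Edges

/-!
The cube.
-/

open MeasureTheory Set Filter Topology
open scoped ENNReal InnerProductSpace

namespace Melzak

private lemma cu_HE_one : (μHE[1] : Measure (E 3)) = μH[1] := by
  have h1 : (μHE[1] : Measure ℝ) = volume := by
    have := InnerProductSpace.euclideanHausdorffMeasure_eq_volume (V := ℝ)
    simpa using this
  have h2 := MeasureTheory.Measure.euclideanHausdorffMeasure_def (X := ℝ) 1
  have h3 : (Measure.addHaarScalarFactor (volume : Measure (EuclideanSpace ℝ (Fin 1)))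
      μH[((1 : ℕ) : ℝ)]) = 1 := by
    have h4 : (μHE[1] : Measure ℝ) (Icc 0 1) = (volume : Measure ℝ) (Icc 0 1) := by rw [h1]
    rw [h2, Measure.smul_apply] at h4
    have h5 : (μH[((1 : ℕ) : ℝ)] : Measure ℝ) = volume := by
      rw [Nat.cast_one]; exact hausdorffMeasure_real
    rw [h5, Real.volume_Icc] at h4
    simp only [sub_zero, ENNReal.ofReal_one] at h4
    rw [ENNReal.smul_def, smul_eq_mul, mul_one] at h4
    exact_mod_cast h4
  rw [MeasureTheory.Measure.euclideanHausdorffMeasure_def, h3, one_smul, Nat.cast_one]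

private lemma cu_HE_segment (a b : E 3) : μHE[1] (segment ℝ a b) = edist a b := by
  rw [cu_HE_one, hausdorffMeasure_segment]

/-- index of the direction of the facet -/
private def cuI : Fin 6 → Fin 3 := ![0, 1, 2, 0, 1, 2]

/-- sign of the facet -/
private noncomputable def cuS : Fin 6 → ℝ := ![1, 1, 1, -1, -1, -1]

private noncomputable def cuN (i : Fin 6) : E 3 := EuclideanSpace.single (cuI i) (cuS i)

private noncomputable def cuH (_ : Fin 6) : ℝ := 1 / 2

private lemma cuS_cases (i : Fin 6) : cuS i = 1 ∨ cuS i = -1 := by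
  fin_cases i <;> simp [cuS]

private lemma cu_inner (i : Fin 6) (x : E 3) : ⟪cuN i, x⟫_ℝ = cuS i * x (cuI i) := by
  unfold cuN
  rw [EuclideanSpace.inner_single_left]
  simp

private lemma cu_same {i j : Fin 6} (hij : i ≠ j) (h : cuI i = cuI j) : cuS j = - cuS i := by
  have h1 : ∀ i j : Fin 6, i ≠ j → cuI i = cuI j → (i = 0 ∧ j = 3) ∨ (i = 3 ∧ j = 0) ∨
      (i = 1 ∧ j = 4) ∨ (i = 4 ∧ j = 1) ∨ (i = 2 ∧ j = 5) ∨ (i = 5 ∧ j = 2) := by decide
  rcases h1 i j hij h with ⟨rfl, rfl⟩ | ⟨rfl, rfl⟩ | ⟨rfl, rfl⟩ | ⟨rfl, rfl⟩ | ⟨rfl, rfl⟩ | ⟨rfl, rfl⟩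
    <;> simp [cuS]

private lemma cu_poly (x : E 3) : x ∈ Poly cuN cuH ↔ ∀ k : Fin 3, x k ∈ Icc (-(1 / 2) : ℝ) (1 / 2) := by
  constructor
  · intro h k
    have h0 := h 0
    have h1 := h 1
    have h2 := h 2
    have h3 := h 3
    have h4 := h 4
    have h5 := h 5
    simp only [cu_inner, cuH, cuS, cuI] at h0 h1 h2 h3 h4 h5
    simp at h0 h1 h2 h3 h4 h5
    rw [mem_Icc]
    fin_cases k <;> constructor <;> simp <;> linarith
  · intro h i
    rw [cu_inner]
    have h1 := h (cuI i)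
    rw [mem_Icc] at h1
    unfold cuH
    rcases cuS_cases i with h2 | h2 <;> rw [h2] <;> linarith

private lemma cu_good : Good cuN cuH := by
  refine ⟨?_, ?_, ?_, ?_⟩
  · intro i
    unfold cuN
    rw [PiLp.norm_single]
    rcases cuS_cases i with h | h <;> rw [h] <;> simp
  · intro i
    refine ⟨(1 / 2 : ℝ) • cuN i, ?_, ?_⟩
    · rw [cu_inner]
      simp only [cuN, cuH, PiLp.smul_apply, PiLp.single_apply, if_true, smul_eq_mul]
      rcases cuS_cases i with h | h <;> rw [h] <;> norm_num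
    · intro j hj
      rw [cu_inner]
      simp only [cuN, cuH, PiLp.smul_apply, PiLp.single_apply, smul_eq_mul]
      by_cases h : cuI j = cuI i
      · rw [if_pos h, cu_same hj.symm h.symm]
        rcases cuS_cases i with h | h <;> rw [h] <;> norm_num
      · rw [if_neg h]; norm_num
  · rw [isBounded_iff_forall_norm_le]
    refine ⟨1, fun x hx => ?_⟩
    rw [cu_poly] at hx
    rw [EuclideanSpace.norm_eq, Real.sqrt_le_left (by norm_num), Fin.sum_univ_three]
    have h : ∀ k : Fin 3, ‖x k‖ ^ 2 ≤ 1 / 4 := by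
      intro k
      have := hx k
      rw [mem_Icc] at this
      rw [Real.norm_eq_abs, sq_abs]
      nlinarith
    have h0 := h 0
    have h1 := h 1
    have h2 := h 2
    linarith
  · refine ⟨0, fun i => ?_⟩
    rw [inner_zero_right]
    unfold cuH
    norm_num

private lemma cu_volume : volume (Poly cuN cuH) = 1 := by
  have h1 : Poly cuN cuH = (WithLp.ofLp : E 3 → (Fin 3 → ℝ)) ⁻¹'
      (Set.pi univ (fun _ => Icc (-(1 / 2) : ℝ) (1 / 2))) := by
    ext x
    rw [cu_poly, mem_preimage, Set.mem_univ_pi]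
  rw [h1, (PiLp.volume_preserving_ofLp (Fin 3)).measure_preimage
    (MeasurableSet.univ_pi fun _ => measurableSet_Icc).nullMeasurableSet, volume_pi, Measure.pi_pi]
  simp only [Real.volume_Icc]
  norm_num

private lemma cu_third : ∀ a b : Fin 3, a ≠ b → ∃ k, k ≠ a ∧ k ≠ b ∧ ∀ i, i = a ∨ i = b ∨ i = k := by
  decide

private lemma cu_edge {p q : Fin 6} (hpq : p ≠ q) :
    μHE[1] (Fac cuN cuH p ∩ Fac cuN cuH q) ≤ ((if cuI p = cuI q then 0 else 1 : ℕ) : ℝ≥0∞) := by
  by_cases h : cuI p = cuI q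
  · have h1 : Fac cuN cuH p ∩ Fac cuN cuH q = ∅ := by
      rw [Set.eq_empty_iff_forall_notMem]
      rintro x ⟨⟨_, h2⟩, ⟨_, h3⟩⟩
      rw [cu_inner] at h2 h3
      rw [cu_same hpq h, ← h] at h3
      unfold cuH at h2 h3
      linarith
    rw [h1, measure_empty, if_pos h]
    simp
  · rw [if_neg h]
    obtain ⟨k, hk1, hk2, hk3⟩ := cu_third _ _ h
    let f : ℝ → E 3 := fun r => WithLp.toLp 2 (fun i => if i = cuI p then cuS p / 2 else
      if i = cuI q then cuS q / 2 else r)
    have hf : ∀ r, (f r) (cuI p) = cuS p / 2 ∧ (f r) (cuI q) = cuS q / 2 ∧ (f r) k = r := by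
      intro r
      refine ⟨?_, ?_, ?_⟩
      · simp [f]
      · simp [f, Ne.symm h]
      · simp [f, hk1, hk2]
    have hsub : Fac cuN cuH p ∩ Fac cuN cuH q ⊆ segment ℝ (f (-(1 / 2))) (f (1 / 2)) := by
      rintro x ⟨⟨hx, h2⟩, ⟨_, h3⟩⟩
      rw [cu_poly] at hx
      rw [cu_inner] at h2 h3
      unfold cuH at h2 h3
      have hx1 : x (cuI p) = cuS p / 2 := by
        rcases cuS_cases p with e | e <;> rw [e] at h2 ⊢ <;> linarith
      have hx2 : x (cuI q) = cuS q / 2 := by
        rcases cuS_cases q with e | e <;> rw [e] at h3 ⊢ <;> linarith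
      have hk := hx k
      rw [mem_Icc] at hk
      refine ⟨1 / 2 - x k, 1 / 2 + x k, by linarith, by linarith, by ring, ?_⟩
      ext i
      simp only [PiLp.add_apply, PiLp.smul_apply, smul_eq_mul]
      rcases hk3 i with e | e | e
      · rw [e, (hf _).1, (hf _).1, hx1]; ring
      · rw [e, (hf _).2.1, (hf _).2.1, hx2]; ring
      · rw [e, (hf _).2.2, (hf _).2.2]; ring
    refine (measure_mono hsub).trans ?_
    rw [cu_HE_segment]
    have hd : f (-(1 / 2)) - f (1 / 2) = EuclideanSpace.single k (-1) := by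
      ext i
      rw [PiLp.sub_apply, PiLp.single_apply]
      rcases hk3 i with e | e | e
      · rw [e, (hf _).1, (hf _).1, if_neg (Ne.symm hk1)]; ring
      · rw [e, (hf _).2.1, (hf _).2.1, if_neg (Ne.symm hk2)]; ring
      · rw [e, (hf _).2.2, (hf _).2.2, if_pos rfl]; ring
    rw [edist_dist, dist_eq_norm, hd, PiLp.norm_single]
    simp

lemma exists_cube : ∃ (n : Fin 6 → E 3) (h : Fin 6 → ℝ), Good n h ∧ volume (Poly n h) = 1 ∧
    zeta 1 (Poly n h) ≤ 12 := by
  refine ⟨cuN, cuH, cu_good, cu_volume, ?_⟩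
  rw [cu_good.zeta_one_pairs]
  refine (Finset.sum_le_sum (g := fun p : Fin 6 × Fin 6 =>
    ((if cuI p.1 = cuI p.2 then 0 else 1 : ℕ) : ℝ≥0∞)) fun p hp => ?_).trans ?_
  · rw [Finset.mem_filter] at hp
    exact cu_edge hp.2.ne
  · rw [← Nat.cast_sum]
    have : (∑ p : Fin 6 × Fin 6 with p.1 < p.2, (if cuI p.1 = cuI p.2 then 0 else 1 : ℕ)) = 12 := by
      decide
    rw [this]
    norm_num

end Melzak
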