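import Mathlib

/-!
# MP_90631d_gt : contents of polytopes (Eggleston, Gruenbaum, Klee)

Definitions, following the problem file.
-/

open MeasureTheory Set Filter Topology
open scoped ENNReal InnerProductSpace

namespace Melzak

/-- Euclidean d-space. -/
abbrev E (d : ℕ) := EuclideanSpace ℝ (Fin d)

/-- A d-polytope in E d: a bounded intersection of finitely many closed half-spaces
with nonempty interior (equivalently: the convex hull of a finite set, with nonempty interior). -/
structure IsPolytope {d : ℕ} (P : Set (E d)) : Prop where
  halfspaces : ∃ (m : ℕ) (n : Fin m → E d) (h : Fin m → ℝ), P = {x | ∀ i, ⟪n i, x⟫_ℝ ≤ h i}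
  bounded : Bornology.IsBounded P
  nonempty_interior : (interior P).Nonempty

/-- F is a k-face of P: a nonempty exposed subset of P (P itself included) whose affine hull has
dimension k. -/
def IsKFace {d : ℕ} (k : ℕ) (P F : Set (E d)) : Prop :=
  F.Nonempty ∧ IsExposed ℝ P F ∧ Module.finrank ℝ (vectorSpan ℝ F) = k

/-- The k-content of a polytope: the sum over the k-faces of their k-dimensional volume
(Euclidean Hausdorff measure, normalised as Lebesgue measure on k-dimensional affine subspaces). -/
noncomputable def zeta {d : ℕ} (k : ℕ) (P : Set (E d)) : ℝ≥0∞ :=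
  ∑' F : {F : Set (E d) // IsKFace k P F}, μHE[k] (F : Set (E d))

/-- A d-dimensional compact convex set. -/
structure IsBody {d : ℕ} (K : Set (E d)) : Prop where
  isCompact : IsCompact K
  convex : Convex ℝ K
  nonempty_interior : (interior K).Nonempty

/-- The k-content of a compact convex set: the infimum of the lower limits of the k-contents of
polytopes, over all sequences of d-polytopes converging to K in the Hausdorff metric. -/
noncomputable def zetaLim {d : ℕ} (k : ℕ) (K : Set (E d)) : ℝ≥0∞ :=
  ⨅ (P : ℕ → Set (E d)) (_ : ∀ n, IsPolytope (P n))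
    (_ : Tendsto (fun n => Metric.hausdorffEDist (P n) K) atTop (𝓝 0)),
    liminf (fun n => zeta k (P n)) atTop

/-- The constant gamma(d; 1, s): the supremum of zeta_s(K)^(1/s) / zeta_1(K) over the compact convex
sets K of dimension d for which zeta_1(K) is finite. -/
noncomputable def gamma (d s : ℕ) : ℝ≥0∞ :=
  ⨆ (K : Set (E d)) (_ : IsBody K) (_ : zetaLim 1 K < ∞),
    zetaLim s K ^ (1 / (s : ℝ)) / zetaLim 1 K

end Melzak
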