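import Pool.Agent.Helper27.Melzak.Poly

/-!
The 1-content and the 2-faces of a 3-polytope in terms of an irredundant representation.
-/

open MeasureTheory Set Filter Topology
open scoped ENNReal InnerProductSpace

namespace Melzak

variable {ι : Type*}

/-! ### Elementary facts on `Poly` and `Fac` -/

private lemma ed_isClosed_Poly (n : ι → E 3) (h : ι → ℝ) : IsClosed (Poly n h) := by
  have : Poly n h = ⋂ i, {x | ⟪n i, x⟫_ℝ ≤ h i} := by ext x; simp [Poly]
  rw [this]
  exact isClosed_iInter fun i => isClosed_le (by fun_prop) continuous_const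

private lemma ed_convex_Poly (n : ι → E 3) (h : ι → ℝ) : Convex ℝ (Poly n h) := by
  intro x hx y hy a b ha hb hab i
  have h1 := hx i
  have h2 := hy i
  rw [inner_add_right, inner_smul_right, inner_smul_right]
  calc a * ⟪n i, x⟫_ℝ + b * ⟪n i, y⟫_ℝ ≤ a * h i + b * h i :=
        add_le_add (mul_le_mul_of_nonneg_left h1 ha) (mul_le_mul_of_nonneg_left h2 hb)
    _ = h i := by rw [← add_mul, hab, one_mul]

private lemma ed_convex_Fac (n : ι → E 3) (h : ι → ℝ) (i : ι) : Convex ℝ (Fac n h i) := by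
  intro x hx y hy a b ha hb hab
  refine ⟨ed_convex_Poly n h hx.1 hy.1 ha hb hab, ?_⟩
  rw [inner_add_right, inner_smul_right, inner_smul_right, hx.2, hy.2, ← add_mul, hab, one_mul]

private lemma ed_isClosed_Fac (n : ι → E 3) (h : ι → ℝ) (i : ι) : IsClosed (Fac n h i) := by
  have : Fac n h i = Poly n h ∩ {x | ⟪n i, x⟫_ℝ = h i} := by ext x; simp [Fac]
  rw [this]
  exact (ed_isClosed_Poly n h).inter (isClosed_eq (by fun_prop) continuous_const)

private lemma ed_Fac_subset (n : ι → E 3) (h : ι → ℝ) (i : ι) : Fac n h i ⊆ Poly n h :=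
  fun _ hx => hx.1

private lemma ed_isCompact_Poly {n : ι → E 3} {h : ι → ℝ} (hg : Good n h) :
    IsCompact (Poly n h) :=
  Metric.isCompact_of_isClosed_isBounded (ed_isClosed_Poly n h) hg.bdd

private lemma ed_isCompact_Fac {n : ι → E 3} {h : ι → ℝ} (hg : Good n h) (i : ι) :
    IsCompact (Fac n h i) :=
  (ed_isCompact_Poly hg).of_isClosed_subset (ed_isClosed_Fac n h i) (ed_Fac_subset n h i)

/-- A point of a convex subset of the polyhedron with the smallest set of active constraints. -/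
private lemma ed_min_active [Fintype ι] {n : ι → E 3} {h : ι → ℝ} {F : Set (E 3)}
    (hF : F ⊆ Poly n h) (hc : Convex ℝ F) (hne : F.Nonempty) :
    ∃ x₀ ∈ F, ∀ x ∈ F, ∀ i, ⟪n i, x₀⟫_ℝ = h i → ⟪n i, x⟫_ℝ = h i := by
  classical
  obtain ⟨x₀, hx₀, hmin⟩ := WellFounded.has_min
    (measure fun x : E 3 => (Finset.univ.filter (fun i => ⟪n i, x⟫_ℝ = h i)).card).wf F hne
  refine ⟨x₀, hx₀, fun x hx i hi => ?_⟩
  by_contra hxi
  have hm : (1 / 2 : ℝ) • x₀ + (1 / 2 : ℝ) • x ∈ F := hc hx₀ hx (by norm_num) (by norm_num)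
    (by norm_num)
  apply hmin _ hm
  change (Finset.univ.filter (fun i => ⟪n i, (1 / 2 : ℝ) • x₀ + (1 / 2 : ℝ) • x⟫_ℝ = h i)).card <
    (Finset.univ.filter (fun i => ⟪n i, x₀⟫_ℝ = h i)).card
  apply Finset.card_lt_card
  rw [Finset.ssubset_iff_of_subset]
  · refine ⟨i, by simpa using hi, ?_⟩
    simp only [Finset.mem_filter, Finset.mem_univ, true_and]
    rw [inner_add_right, inner_smul_right, inner_smul_right, hi]
    intro h3
    exact hxi (by linarith)
  · intro j hj
    simp only [Finset.mem_filter, Finset.mem_univ, true_and] at hj ⊢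
    rw [inner_add_right, inner_smul_right, inner_smul_right] at hj
    have h1 := hF hx₀ j
    have h2 := hF hx j
    linarith

/-- Small moves in directions orthogonal to the active normals stay in the polyhedron. -/
private lemma ed_move [Fintype ι] {n : ι → E 3} {h : ι → ℝ} {x₀ d : E 3} (hx : x₀ ∈ Poly n h)
    (hd : ∀ i, ⟪n i, x₀⟫_ℝ = h i → ⟪n i, d⟫_ℝ = 0) :
    ∃ ε : ℝ, 0 < ε ∧ x₀ + ε • d ∈ Poly n h ∧ x₀ - ε • d ∈ Poly n h := by
  have hev : ∀ i, ∀ᶠ ε : ℝ in 𝓝[>] 0,
      ⟪n i, x₀ + ε • d⟫_ℝ ≤ h i ∧ ⟪n i, x₀ - ε • d⟫_ℝ ≤ h i := by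
    intro i
    by_cases hi : ⟪n i, x₀⟫_ℝ = h i
    · refine Eventually.of_forall fun ε => ?_
      rw [inner_add_right, inner_sub_right, inner_smul_right, hd i hi, hi]
      simp
    · have hlt : ⟪n i, x₀⟫_ℝ < h i := lt_of_le_of_ne (hx i) hi
      have c1 : Continuous fun ε : ℝ => ⟪n i, x₀ + ε • d⟫_ℝ := by fun_prop
      have c2 : Continuous fun ε : ℝ => ⟪n i, x₀ - ε • d⟫_ℝ := by fun_prop
      have e1 : ∀ᶠ ε : ℝ in 𝓝 0, ⟪n i, x₀ + ε • d⟫_ℝ < h i :=
        c1.continuousAt.eventually_lt continuousAt_const (by simpa using hlt)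
      have e2 : ∀ᶠ ε : ℝ in 𝓝 0, ⟪n i, x₀ - ε • d⟫_ℝ < h i :=
        c2.continuousAt.eventually_lt continuousAt_const (by simpa using hlt)
      filter_upwards [nhdsWithin_le_nhds e1, nhdsWithin_le_nhds e2] with ε h1 h2
      exact ⟨h1.le, h2.le⟩
  have hall := (eventually_all.2 hev).and (self_mem_nhdsWithin : Ioi (0 : ℝ) ∈ 𝓝[>] 0)
  obtain ⟨ε, h1, h2⟩ := hall.exists
  exact ⟨ε, h2, fun i => (h1 i).1, fun i => (h1 i).2⟩

/-- An exposed face is determined by the active constraints of a generic point. -/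
private lemma ed_face [Fintype ι] {n : ι → E 3} {h : ι → ℝ} {F : Set (E 3)}
    (hF : F.Nonempty) (hexp : IsExposed ℝ (Poly n h) F) :
    ∃ x₀ ∈ F, F = {x | x ∈ Poly n h ∧ ∀ i, ⟪n i, x₀⟫_ℝ = h i → ⟪n i, x⟫_ℝ = h i} ∧
      ∀ d : E 3, d ∈ vectorSpan ℝ F ↔ ∀ i, ⟪n i, x₀⟫_ℝ = h i → ⟪n i, d⟫_ℝ = 0 := by
  have hsub : F ⊆ Poly n h := hexp.subset
  obtain ⟨x₀, hx₀, hmin⟩ := ed_min_active hsub (hexp.convex (ed_convex_Poly n h)) hF
  have hFeq : F = {x | x ∈ Poly n h ∧ ∀ i, ⟪n i, x₀⟫_ℝ = h i → ⟪n i, x⟫_ℝ = h i} := by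
    obtain ⟨l, hl⟩ := hexp hF
    apply Set.Subset.antisymm
    · intro x hx
      exact ⟨hsub hx, hmin x hx⟩
    · rintro x ⟨hxP, hxa⟩
      obtain ⟨ε, hε, -, h2⟩ := ed_move (d := x - x₀) (hsub hx₀) (by
        intro i hi
        rw [inner_sub_right, hxa i hi, hi, sub_self])
      rw [hl] at hx₀ ⊢
      refine ⟨hxP, fun y hy => (hx₀.2 y hy).trans ?_⟩
      have h3 := hx₀.2 _ h2
      rw [map_sub, map_smul, map_sub, smul_eq_mul] at h3
      have : 0 ≤ ε * (l x - l x₀) := by linarith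
      have := nonneg_of_mul_nonneg_right this hε
      linarith
  refine ⟨x₀, hx₀, hFeq, fun d => ⟨fun hd i hi => ?_, fun hd => ?_⟩⟩
  · rw [vectorSpan_def] at hd
    have : Submodule.span ℝ (F -ᵥ F) ≤ LinearMap.ker (innerₛₗ ℝ (n i)) := by
      rw [Submodule.span_le]
      rintro _ ⟨x, hx, y, hy, rfl⟩
      simp [vsub_eq_sub, inner_sub_right, hmin x hx i hi, hmin y hy i hi]
    simpa using this hd
  · obtain ⟨ε, hε, h1, -⟩ := ed_move (hsub hx₀) hd
    have hmem : x₀ + ε • d ∈ F := by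
      rw [hFeq]
      refine ⟨h1, fun i hi => ?_⟩
      rw [inner_add_right, inner_smul_right, hd i hi, hi]
      simp
    have h3 : (x₀ + ε • d) -ᵥ x₀ ∈ vectorSpan ℝ F := vsub_mem_vectorSpan ℝ hmem hx₀
    have h4 : ε⁻¹ • ((x₀ + ε • d) -ᵥ x₀) ∈ vectorSpan ℝ F := Submodule.smul_mem _ _ h3
    simpa [vsub_eq_sub, smul_smul, hε.ne'] using h4

/-- Two active normals at a common point are linearly independent. -/
private lemma ed_indep {n : ι → E 3} {h : ι → ℝ} (hg : Good n h) {i j : ι} (hij : i ≠ j)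
    {b : E 3} (hi : ⟪n i, b⟫_ℝ = h i) (hj : ⟪n j, b⟫_ℝ = h j) :
    LinearIndependent ℝ ![n i, n j] := by
  rw [LinearIndependent.pair_iff]
  intro s t hst
  obtain ⟨z, hz⟩ := hg.slater
  obtain ⟨yi, hyi, hyi'⟩ := hg.irr i
  obtain ⟨yj, hyj, hyj'⟩ := hg.irr j
  have h1 : s * ⟪n i, b - z⟫_ℝ + t * ⟪n j, b - z⟫_ℝ = 0 := by
    have : ⟪s • n i + t • n j, b - z⟫_ℝ = 0 := by rw [hst, inner_zero_left]
    rw [inner_add_left, inner_smul_left, inner_smul_left] at this
    simpa using this
  have h2 : s * ⟪n i, yi - b⟫_ℝ + t * ⟪n j, yi - b⟫_ℝ = 0 := by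
    have : ⟪s • n i + t • n j, yi - b⟫_ℝ = 0 := by rw [hst, inner_zero_left]
    rw [inner_add_left, inner_smul_left, inner_smul_left] at this
    simpa using this
  have h3 : s * ⟪n i, yj - b⟫_ℝ + t * ⟪n j, yj - b⟫_ℝ = 0 := by
    have : ⟪s • n i + t • n j, yj - b⟫_ℝ = 0 := by rw [hst, inner_zero_left]
    rw [inner_add_left, inner_smul_left, inner_smul_left] at this
    simpa using this
  rw [inner_sub_right, inner_sub_right, hyi, hi, sub_self, mul_zero, zero_add, hj] at h2
  rw [inner_sub_right, inner_sub_right, hyj, hj, sub_self, mul_zero, add_zero, hi] at h3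
  have k2 := hyi' j hij.symm
  have k3 := hyj' i hij
  constructor
  · rcases mul_eq_zero.1 h3 with h | h
    · exact h
    · exact absurd h (by linarith)
  · rcases mul_eq_zero.1 h2 with h | h
    · exact h
    · exact absurd h (by linarith)

private lemma ed_finrank_pair {v w : E 3} (hvw : LinearIndependent ℝ ![v, w])
    {W : Submodule ℝ (E 3)} (hv : ∀ d ∈ W, ⟪v, d⟫_ℝ = 0) (hw : ∀ d ∈ W, ⟪w, d⟫_ℝ = 0) :
    Module.finrank ℝ W ≤ 1 := by
  set K : Submodule ℝ (E 3) := Submodule.span ℝ (Set.range ![v, w]) with hK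
  have h1 : Module.finrank ℝ K = 2 := by
    rw [hK, finrank_span_eq_card hvw]; simp
  have h2 : Module.finrank ℝ K + Module.finrank ℝ Kᗮ = 3 := by
    rw [Submodule.finrank_add_finrank_orthogonal]; simp
  have h3 : W ≤ Kᗮ := by
    intro d hd
    rw [Submodule.mem_orthogonal]
    intro x hx
    rw [hK] at hx
    induction hx using Submodule.span_induction with
    | mem x hx =>
      obtain ⟨k, rfl⟩ := hx
      fin_cases k
      · simpa using hv d hd
      · simpa using hw d hd
    | zero => simp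
    | add x y _ _ hx hy => rw [inner_add_left, hx, hy, add_zero]
    | smul a x _ hx => rw [inner_smul_left, hx, mul_zero]
  have h4 := Submodule.finrank_mono h3
  omega

private lemma ed_finrank_single {v : E 3} {W : Submodule ℝ (E 3)}
    (hv : ∀ d : E 3, ⟪v, d⟫_ℝ = 0 → d ∈ W) : 2 ≤ Module.finrank ℝ W := by
  have h2 : Module.finrank ℝ (ℝ ∙ v) + Module.finrank ℝ (ℝ ∙ v)ᗮ = 3 := by
    rw [Submodule.finrank_add_finrank_orthogonal]; simp
  have h1 : Module.finrank ℝ (ℝ ∙ v) ≤ 1 := by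
    have := finrank_span_le_card (R := ℝ) ({v} : Set (E 3))
    simpa using this
  have h3 : (ℝ ∙ v)ᗮ ≤ W := fun d hd => hv d (Submodule.mem_orthogonal_singleton_iff_inner_right.1 hd)
  have h4 := Submodule.finrank_mono h3
  omega

/-- A 1-face is the intersection of two facets. -/
private lemma ed_one_face [Fintype ι] {n : ι → E 3} {h : ι → ℝ} (hg : Good n h)
    {F : Set (E 3)} (hF : IsKFace 1 (Poly n h) F) :
    ∃ i j, i ≠ j ∧ F = Fac n h i ∩ Fac n h j := by
  obtain ⟨hne, hexp, hrk⟩ := hF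
  obtain ⟨x₀, hx₀, hFeq, hspan⟩ := ed_face hne hexp
  by_cases hex : ∃ i j, i ≠ j ∧ ⟪n i, x₀⟫_ℝ = h i ∧ ⟪n j, x₀⟫_ℝ = h j
  · obtain ⟨i, j, hij, hi, hj⟩ := hex
    refine ⟨i, j, hij, ?_⟩
    have honly : ∀ k, ⟪n k, x₀⟫_ℝ = h k → k = i ∨ k = j := by
      intro k hk
      by_contra hcon
      push Not at hcon
      have hz : vectorSpan ℝ F = ⊥ := by
        rw [Submodule.eq_bot_iff]
        intro d hd
        have hd' := (hspan d).1 hd
        exact hg.no_three hij (Ne.symm hcon.1) (Ne.symm hcon.2) hi hj hk (hd' i hi) (hd' j hj)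
          (hd' k hk)
      rw [hz] at hrk
      simp at hrk
    rw [hFeq]
    ext x
    constructor
    · rintro ⟨h1, h2⟩
      exact ⟨⟨h1, h2 i hi⟩, ⟨h1, h2 j hj⟩⟩
    · rintro ⟨⟨h1, h2⟩, ⟨_, h3⟩⟩
      refine ⟨h1, fun k hk => ?_⟩
      rcases honly k hk with rfl | rfl
      · exact h2
      · exact h3
  · exfalso
    push Not at hex
    by_cases hex1 : ∃ i, ⟪n i, x₀⟫_ℝ = h i
    · obtain ⟨i, hi⟩ := hex1
      have := ed_finrank_single (v := n i) (W := vectorSpan ℝ F) (fun d hd => by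
        rw [hspan]
        intro j hj
        by_cases hij : i = j
        · subst hij; exact hd
        · exact absurd hj (hex i j hij hi))
      omega
    · push Not at hex1
      have := ed_finrank_single (v := (0 : E 3)) (W := vectorSpan ℝ F) (fun d hd => by
        rw [hspan]
        intro j hj
        exact absurd hj (hex1 j))
      omega

/-- Conversely, a nondegenerate intersection of two facets is a 1-face. -/
private lemma ed_one_face' {n : ι → E 3} {h : ι → ℝ} (hg : Good n h)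
    {i j : ι} (hij : i ≠ j) {a b : E 3} (ha : a ∈ Fac n h i ∩ Fac n h j)
    (hb : b ∈ Fac n h i ∩ Fac n h j) (hab : a ≠ b) :
    IsKFace 1 (Poly n h) (Fac n h i ∩ Fac n h j) := by
  refine ⟨⟨a, ha⟩, ?_, ?_⟩
  · intro _
    refine ⟨innerSL ℝ (n i + n j), ?_⟩
    ext x
    constructor
    · rintro ⟨⟨h1, h2⟩, ⟨_, h3⟩⟩
      refine ⟨h1, fun y hy => ?_⟩
      simp only [innerSL_apply_apply, inner_add_left]
      rw [h2, h3]
      exact add_le_add (hy i) (hy j)
    · rintro ⟨h1, h2⟩
      have h3 := h2 a ha.1.1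
      simp only [innerSL_apply_apply, inner_add_left] at h3
      rw [ha.1.2, ha.2.2] at h3
      have h4 := h1 i
      have h5 := h1 j
      exact ⟨⟨h1, by linarith⟩, ⟨h1, by linarith⟩⟩
  · have hle : Module.finrank ℝ (vectorSpan ℝ (Fac n h i ∩ Fac n h j)) ≤ 1 := by
      apply ed_finrank_pair (ed_indep hg hij ha.1.2 ha.2.2)
      · intro d hd
        rw [vectorSpan_def] at hd
        have : Submodule.span ℝ ((Fac n h i ∩ Fac n h j) -ᵥ (Fac n h i ∩ Fac n h j)) ≤
            LinearMap.ker (innerₛₗ ℝ (n i)) := by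
          rw [Submodule.span_le]
          rintro _ ⟨x, hx, y, hy, rfl⟩
          simp [vsub_eq_sub, inner_sub_right, hx.1.2, hy.1.2]
        simpa using this hd
      · intro d hd
        rw [vectorSpan_def] at hd
        have : Submodule.span ℝ ((Fac n h i ∩ Fac n h j) -ᵥ (Fac n h i ∩ Fac n h j)) ≤
            LinearMap.ker (innerₛₗ ℝ (n j)) := by
          rw [Submodule.span_le]
          rintro _ ⟨x, hx, y, hy, rfl⟩
          simp [vsub_eq_sub, inner_sub_right, hx.2.2, hy.2.2]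
        simpa using this hd
    have hge : Module.finrank ℝ (vectorSpan ℝ (Fac n h i ∩ Fac n h j)) ≠ 0 := by
      intro h0
      rw [Submodule.finrank_eq_zero] at h0
      have hm : a -ᵥ b ∈ vectorSpan ℝ (Fac n h i ∩ Fac n h j) := vsub_mem_vectorSpan ℝ ha hb
      rw [h0, Submodule.mem_bot, vsub_eq_sub, sub_eq_zero] at hm
      exact hab hm
    omega

/-- The two facets cutting out an edge are unique. -/
private lemma ed_pair_unique {n : ι → E 3} {h : ι → ℝ} (hg : Good n h) {i j k l : ι}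
    (hij : i ≠ j) (hkl : k ≠ l) {a b : E 3} (ha : a ∈ Fac n h i ∩ Fac n h j)
    (hb : b ∈ Fac n h i ∩ Fac n h j) (ha' : a ∈ Fac n h k ∩ Fac n h l)
    (hb' : b ∈ Fac n h k ∩ Fac n h l) (hab : a ≠ b) : (i = k ∧ j = l) ∨ (i = l ∧ j = k) := by
  have key : ∀ m, a ∈ Fac n h m → b ∈ Fac n h m → m = i ∨ m = j := by
    intro m hma hmb
    by_contra hcon
    push Not at hcon
    have : a - b = 0 := hg.no_three (b := a) hij (Ne.symm hcon.1) (Ne.symm hcon.2) ha.1.2 ha.2.2
      hma.2 (by rw [inner_sub_right, ha.1.2, hb.1.2, sub_self])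
      (by rw [inner_sub_right, ha.2.2, hb.2.2, sub_self])
      (by rw [inner_sub_right, hma.2, hmb.2, sub_self])
    exact hab (sub_eq_zero.1 this)
  rcases key k ha'.1 hb'.1 with h1 | h1 <;> rcases key l ha'.2 hb'.2 with h2 | h2
  · exact absurd (h1.trans h2.symm) hkl
  · exact Or.inl ⟨h1.symm, h2.symm⟩
  · exact Or.inr ⟨h2.symm, h1.symm⟩
  · exact absurd (h1.trans h2.symm) hkl

lemma Good.facets_le [Fintype ι] {n : ι → E 3} {h : ι → ℝ} (hg : Good n h) :
    {F | IsKFace 2 (Poly n h) F}.encard ≤ Fintype.card ι := by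
  classical
  have hsub : {F | IsKFace 2 (Poly n h) F} ⊆ Set.range (Fac n h) := by
    rintro F ⟨hne, hexp, hrk⟩
    obtain ⟨x₀, hx₀, hFeq, hspan⟩ := ed_face hne hexp
    by_cases hex1 : ∃ i, ⟪n i, x₀⟫_ℝ = h i
    · obtain ⟨i, hi⟩ := hex1
      refine ⟨i, ?_⟩
      have honly : ∀ k, ⟪n k, x₀⟫_ℝ = h k → k = i := by
        intro k hk
        by_contra hcon
        have := ed_finrank_pair (W := vectorSpan ℝ F) (ed_indep hg (Ne.symm hcon) hi hk)
          (fun d hd => (hspan d).1 hd i hi) (fun d hd => (hspan d).1 hd k hk)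
        omega
      rw [hFeq]
      ext x
      constructor
      · rintro ⟨h1, h2⟩
        refine ⟨h1, fun k hk => ?_⟩
        rw [honly k hk]; exact h2
      · rintro ⟨h1, h2⟩
        exact ⟨h1, h2 i hi⟩
    · exfalso
      push Not at hex1
      have : vectorSpan ℝ F = ⊤ := by
        rw [Submodule.eq_top_iff']
        intro d
        rw [hspan]
        intro j hj
        exact absurd hj (hex1 j)
      rw [this] at hrk
      simp at hrk
  calc {F | IsKFace 2 (Poly n h) F}.encard ≤ (Set.range (Fac n h)).encard :=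
        Set.encard_le_encard hsub
    _ ≤ Fintype.card ι := by
        rw [← Set.image_univ]
        refine (Set.encard_image_le _ _).trans ?_
        rw [Set.encard_univ, ENat.card_eq_coe_fintype_card]

/-! ### One-dimensional measure -/

private lemma ed_HE_one : (μHE[1] : Measure (E 3)) = μH[1] := by
  have h1 : (μHE[1] : Measure ℝ) = volume := by
    have := InnerProductSpace.euclideanHausdorffMeasure_eq_volume (V := ℝ)
    simpa using this
  have h2 := MeasureTheory.Measure.euclideanHausdorffMeasure_def (X := ℝ) 1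
  have h3 : (Measure.addHaarScalarFactor (volume : Measure (EuclideanSpace ℝ (Fin 1)))
      μH[((1 : ℕ) : ℝ)]) = 1 := by
    have h4 : (μHE[1] : Measure ℝ) (Icc 0 1) = (volume : Measure ℝ) (Icc 0 1) := by rw [h1]
    rw [h2, Measure.smul_apply] at h4
    have h5 : (μH[((1 : ℕ) : ℝ)] : Measure ℝ) = volume := by
      rw [Nat.cast_one]; exact hausdorffMeasure_real
    rw [h5, Real.volume_Icc] at h4
    simp only [sub_zero, ENNReal.ofReal_one] at h4
    rw [ENNReal.smul_def, smul_eq_mul, mul_one] at h4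
    exact_mod_cast h4
  rw [MeasureTheory.Measure.euclideanHausdorffMeasure_def, h3, one_smul, Nat.cast_one]

private lemma ed_HE_segment (a b : E 3) : μHE[1] (segment ℝ a b) = edist a b := by
  rw [ed_HE_one, hausdorffMeasure_segment]

/-- A compact convex collinear set is a segment. -/
private lemma ed_segment {G : Set (E 3)} (hG : IsCompact G) (hc : Convex ℝ G) (hne : G.Nonempty)
    (hcol : Collinear ℝ G) : ∃ a ∈ G, ∃ b ∈ G, G = segment ℝ a b := by
  obtain ⟨⟨a, b⟩, ⟨ha, hb⟩, hmax⟩ := (hG.prod hG).exists_isMaxOn (hne.prod hne)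
    (f := fun p : E 3 × E 3 => dist p.1 p.2) (by fun_prop)
  simp only at ha hb
  refine ⟨a, ha, b, hb, ?_⟩
  have hmax' : ∀ x ∈ G, ∀ y ∈ G, dist x y ≤ dist a b := fun x hx y hy => hmax (a := (x, y)) ⟨hx, hy⟩
  apply Set.Subset.antisymm _ (hc.segment_subset ha hb)
  intro x hx
  by_cases hab : a = b
  · subst hab
    have := hmax' x hx a ha
    rw [dist_self] at this
    have hxa : x = a := dist_le_zero.1 this
    rw [hxa]
    exact left_mem_segment ℝ a a
  obtain ⟨v, hv⟩ := (collinear_iff_of_mem ha).1 hcol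
  obtain ⟨rb, hrb⟩ := hv b hb
  obtain ⟨rx, hrx⟩ := hv x hx
  simp only [vadd_eq_add] at hrb hrx
  have hrb0 : rb ≠ 0 := by
    rintro rfl
    apply hab
    rw [hrb]; simp
  have hxab : x = a + (rx / rb) • (b - a) := by
    rw [hrb, hrx, add_sub_cancel_right, smul_smul, div_mul_cancel₀ _ hrb0, add_comm]
  set t := rx / rb with ht
  have hd : 0 < dist a b := dist_pos.2 hab
  have h1 : dist a x = |t| * dist a b := by
    rw [hxab, dist_eq_norm, dist_eq_norm, sub_add_cancel_left, norm_neg, norm_smul,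
      Real.norm_eq_abs, norm_sub_rev b a]
  have h2 : dist x b = |1 - t| * dist a b := by
    rw [hxab, dist_eq_norm, dist_eq_norm, ← Real.norm_eq_abs, ← norm_smul]
    congr 1
    rw [sub_smul, one_smul, smul_sub, smul_sub]
    abel
  have h3 := hmax' a ha x hx
  have h4 := hmax' x hx b hb
  rw [h1] at h3
  rw [h2] at h4
  have h5 : |t| ≤ 1 := by
    by_contra hcon
    push Not at hcon
    nlinarith
  have h6 : |1 - t| ≤ 1 := by
    by_contra hcon
    push Not at hcon
    nlinarith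
  rw [abs_le] at h5 h6
  rw [hxab, segment_eq_image']
  exact ⟨t, ⟨by linarith, by linarith⟩, rfl⟩

private lemma ed_collinear {n : ι → E 3} {h : ι → ℝ} (hg : Good n h) {i j : ι} (hij : i ≠ j) :
    Collinear ℝ (Fac n h i ∩ Fac n h j) := by
  rcases Set.eq_empty_or_nonempty (Fac n h i ∩ Fac n h j) with he | ⟨a, ha⟩
  · rw [he]; exact collinear_empty ℝ _
  · rw [collinear_iff_finrank_le_one]
    apply ed_finrank_pair (ed_indep hg hij ha.1.2 ha.2.2)
    · intro d hd
      rw [vectorSpan_def] at hd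
      have : Submodule.span ℝ ((Fac n h i ∩ Fac n h j) -ᵥ (Fac n h i ∩ Fac n h j)) ≤
          LinearMap.ker (innerₛₗ ℝ (n i)) := by
        rw [Submodule.span_le]
        rintro _ ⟨x, hx, y, hy, rfl⟩
        simp [vsub_eq_sub, inner_sub_right, hx.1.2, hy.1.2]
      simpa using this hd
    · intro d hd
      rw [vectorSpan_def] at hd
      have : Submodule.span ℝ ((Fac n h i ∩ Fac n h j) -ᵥ (Fac n h i ∩ Fac n h j)) ≤
          LinearMap.ker (innerₛₗ ℝ (n j)) := by
        rw [Submodule.span_le]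
        rintro _ ⟨x, hx, y, hy, rfl⟩
        simp [vsub_eq_sub, inner_sub_right, hx.2.2, hy.2.2]
      simpa using this hd

private lemma ed_edge_segment {n : ι → E 3} {h : ι → ℝ} (hg : Good n h) {i j : ι} (hij : i ≠ j)
    (hne : (Fac n h i ∩ Fac n h j).Nonempty) :
    ∃ a ∈ Fac n h i ∩ Fac n h j, ∃ b ∈ Fac n h i ∩ Fac n h j,
      Fac n h i ∩ Fac n h j = segment ℝ a b :=
  ed_segment ((ed_isCompact_Fac hg i).inter_right (ed_isClosed_Fac n h j))
    ((ed_convex_Fac n h i).inter (ed_convex_Fac n h j)) hne (ed_collinear hg hij)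

private lemma ed_MM_edge {n : ι → E 3} {h : ι → ℝ} (hg : Good n h) {i j : ι} (hij : i ≠ j) :
    cst * μHE[1] (Fac n h i ∩ Fac n h j) = MM (Fac n h i ∩ Fac n h j) := by
  rcases Set.eq_empty_or_nonempty (Fac n h i ∩ Fac n h j) with he | hne
  · rw [he]
    simp [MM, wid]
  · obtain ⟨a, -, b, -, hab⟩ := ed_edge_segment hg hij hne
    rw [hab, ed_HE_segment, MM_segment]

lemma Good.zeta_one_pairs [Fintype ι] [LinearOrder ι] {n : ι → E 3} {h : ι → ℝ} (hg : Good n h) :
    zeta 1 (Poly n h) =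
      ∑ p : ι × ι with p.1 < p.2, μHE[1] (Fac n h p.1 ∩ Fac n h p.2) := by
  classical
  set G : ι × ι → Set (E 3) := fun p => Fac n h p.1 ∩ Fac n h p.2 with hG
  set S : Finset (ι × ι) := Finset.univ.filter
    (fun p => p.1 < p.2 ∧ ∃ a ∈ G p, ∃ b ∈ G p, a ≠ b) with hS
  have hmemS : ∀ p : ι × ι, p ∈ S ↔ p.1 < p.2 ∧ ∃ a ∈ G p, ∃ b ∈ G p, a ≠ b := by
    intro p; simp [hS]
  let f : S → {F : Set (E 3) // IsKFace 1 (Poly n h) F} := fun p => ⟨G p, by
    obtain ⟨h1, a, ha, b, hb, hab⟩ := (hmemS p).1 p.2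
    exact ed_one_face' hg h1.ne ha hb hab⟩
  have hf : Function.Bijective f := by
    constructor
    · rintro ⟨p, hp⟩ ⟨q, hq⟩ hpq
      have hpq' : G p = G q := congrArg Subtype.val hpq
      obtain ⟨h1, a, ha, b, hb, hab⟩ := (hmemS p).1 hp
      have h2 := ((hmemS q).1 hq).1
      have := ed_pair_unique hg h1.ne h2.ne ha hb (by rw [hpq'] at ha; exact ha)
        (by rw [hpq'] at hb; exact hb) hab
      rcases this with ⟨h3, h4⟩ | ⟨h3, h4⟩
      · exact Subtype.ext (Prod.ext h3 h4)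
      · exfalso
        rw [h3, h4] at h1
        exact lt_asymm h1 h2
    · rintro ⟨F, hF⟩
      obtain ⟨i, j, hij, hFij⟩ := ed_one_face hg hF
      have hnt : ∃ a ∈ F, ∃ b ∈ F, a ≠ b := by
        by_contra hcon
        push Not at hcon
        have : vectorSpan ℝ F = ⊥ := vectorSpan_of_subsingleton ℝ (fun a ha b hb => hcon a ha b hb)
        have h3 := hF.2.2
        rw [this] at h3
        simp at h3
      rw [hFij] at hnt
      rcases lt_or_gt_of_ne hij with hlt | hlt
      · refine ⟨⟨(i, j), (hmemS _).2 ⟨hlt, hnt⟩⟩, Subtype.ext hFij.symm⟩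
      · refine ⟨⟨(j, i), (hmemS _).2 ⟨hlt, ?_⟩⟩, Subtype.ext ?_⟩
        · simp only [hG]
          rw [Set.inter_comm]
          exact hnt
        · change Fac n h j ∩ Fac n h i = F
          rw [Set.inter_comm]; exact hFij.symm
  have h1 : zeta 1 (Poly n h) = ∑' p : S, μHE[1] (G p) := by
    unfold zeta
    rw [← (Equiv.ofBijective f hf).tsum_eq]
    rfl
  rw [h1, Finset.tsum_subtype S (fun p => μHE[1] (G p))]
  apply Finset.sum_subset
  · intro p hp
    simp only [Finset.mem_filter, Finset.mem_univ, true_and]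
    exact ((hmemS p).1 hp).1
  · intro p hp hpS
    simp only [Finset.mem_filter, Finset.mem_univ, true_and] at hp
    rcases Set.eq_empty_or_nonempty (G p) with he | hne
    · rw [he]; simp
    · obtain ⟨a, ha, b, hb, hab⟩ := ed_edge_segment hg hp.ne hne
      have hab' : a = b := by
        by_contra hcon
        exact hpS ((hmemS p).2 ⟨hp, a, ha, b, hb, hcon⟩)
      simp only [hG]
      rw [hab, ed_HE_segment, hab', edist_self]

private lemma ed_MM_facet [Fintype ι] [DecidableEq ι] {n : ι → E 3} {h : ι → ℝ}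
    (hg : Good n h) (i : ι) :
    ∑ j ∈ Finset.univ.erase i, MM (Fac n h i ∩ Fac n h j) = 2 * MM (Fac n h i) := by
  unfold MM
  rw [← lintegral_finsetSum, ← lintegral_const_mul]
  · exact lintegral_congr fun u => hg.facet_formula u i
  · exact measurable_wid (ed_isCompact_Fac hg i) (ed_convex_Fac n h i)
  · intro j _
    exact measurable_wid ((ed_isCompact_Fac hg i).inter_right (ed_isClosed_Fac n h j))
      ((ed_convex_Fac n h i).inter (ed_convex_Fac n h j))

lemma Good.zeta_one [Fintype ι] {n : ι → E 3} {h : ι → ℝ} (hg : Good n h) :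
    cst * zeta 1 (Poly n h) = ∑ i, MM (Fac n h i) := by
  classical
  let _ : LinearOrder ι := LinearOrder.lift' (Fintype.equivFin ι) (Fintype.equivFin ι).injective
  rw [hg.zeta_one_pairs, Finset.mul_sum]
  have h1 : ∑ p : ι × ι with p.1 < p.2, cst * μHE[1] (Fac n h p.1 ∩ Fac n h p.2) =
      ∑ p : ι × ι with p.1 < p.2, MM (Fac n h p.1 ∩ Fac n h p.2) := by
    apply Finset.sum_congr rfl
    intro p hp
    simp only [Finset.mem_filter, Finset.mem_univ, true_and] at hp
    exact ed_MM_edge hg hp.ne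
  have h2 : ∑ p : ι × ι with p.1 < p.2, MM (Fac n h p.1 ∩ Fac n h p.2) =
      ∑ p : ι × ι with p.2 < p.1, MM (Fac n h p.1 ∩ Fac n h p.2) := by
    apply Finset.sum_nbij' Prod.swap Prod.swap
    · intro p hp; simpa using hp
    · intro p hp; simpa using hp
    · intro p _; simp
    · intro p _; simp
    · intro p _
      simp only [Prod.fst_swap, Prod.snd_swap]
      rw [Set.inter_comm]
  have h3 : ∑ p : ι × ι with p.1 < p.2, MM (Fac n h p.1 ∩ Fac n h p.2) +
      ∑ p : ι × ι with p.2 < p.1, MM (Fac n h p.1 ∩ Fac n h p.2) =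
      ∑ p : ι × ι with p.1 ≠ p.2, MM (Fac n h p.1 ∩ Fac n h p.2) := by
    rw [← Finset.sum_union]
    · apply Finset.sum_congr _ (fun _ _ => rfl)
      ext p
      simp only [Finset.mem_union, Finset.mem_filter, Finset.mem_univ, true_and]
      exact lt_or_lt_iff_ne
    · rw [Finset.disjoint_left]
      intro p hp hp'
      simp only [Finset.mem_filter, Finset.mem_univ, true_and] at hp hp'
      exact lt_asymm hp hp'
  have h4 : ∑ p : ι × ι with p.1 ≠ p.2, MM (Fac n h p.1 ∩ Fac n h p.2) =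
      ∑ i, ∑ j ∈ Finset.univ.erase i, MM (Fac n h i ∩ Fac n h j) := by
    rw [Finset.sum_filter, Fintype.sum_prod_type]
    apply Finset.sum_congr rfl
    intro i _
    rw [← Finset.sum_filter]
    apply Finset.sum_congr _ (fun _ _ => rfl)
    ext j
    simp [eq_comm]
  have h5 : ∑ i, ∑ j ∈ Finset.univ.erase i, MM (Fac n h i ∩ Fac n h j) =
      2 * ∑ i, MM (Fac n h i) := by
    rw [Finset.mul_sum]
    exact Finset.sum_congr rfl fun i _ => ed_MM_facet hg i
  rw [h1]
  rw [← h2, ← two_mul, h4, h5] at h3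
  exact (ENNReal.mul_right_inj two_ne_zero ENNReal.ofNat_ne_top).1 h3

lemma Good.diam_le [Fintype ι] {n : ι → E 3} {h : ι → ℝ} (hg : Good n h) {x y : E 3}
    (hx : x ∈ Poly n h) (hy : y ∈ Poly n h) : 3 * edist x y ≤ zeta 1 (Poly n h) := by
  have h1 : 3 * MM (Poly n h) ≤ ∑ i, MM (Fac n h i) := by
    unfold MM
    rw [← lintegral_finsetSum, ← lintegral_const_mul]
    · exact lintegral_mono fun u => hg.three_le u
    · exact measurable_wid (ed_isCompact_Poly hg) (ed_convex_Poly n h)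
    · intro j _
      exact measurable_wid (ed_isCompact_Fac hg j) (ed_convex_Fac n h j)
  have h2 : MM (segment ℝ x y) ≤ MM (Poly n h) :=
    MM_mono ((ed_convex_Poly n h).segment_subset hx hy)
  rw [MM_segment] at h2
  rw [← hg.zeta_one] at h1
  have h3 : cst * (3 * edist x y) ≤ cst * zeta 1 (Poly n h) := by
    calc cst * (3 * edist x y) = 3 * (cst * edist x y) := by ring
      _ ≤ 3 * MM (Poly n h) := by gcongr
      _ ≤ _ := h1
  exact (ENNReal.mul_le_mul_iff_right cst_ne_zero cst_ne_top).1 h3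

lemma zeta_three {P : Set (E 3)} (hP : IsPolytope P) : zeta 3 P = volume P := by
  have hspan : vectorSpan ℝ P = ⊤ := by
    have h1 : affineSpan ℝ (interior P) = ⊤ :=
      isOpen_interior.affineSpan_eq_top hP.nonempty_interior
    have h2 : affineSpan ℝ P = ⊤ := by
      rw [eq_top_iff, ← h1]
      exact affineSpan_mono ℝ interior_subset
    rw [← direction_affineSpan, h2, AffineSubspace.direction_top]
  have hPface : IsKFace 3 P P := by
    refine ⟨hP.nonempty_interior.mono interior_subset, ?_, ?_⟩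
    · intro _
      refine ⟨0, ?_⟩
      ext x
      simp
    · rw [hspan]; simp
  have huniq : ∀ F, IsKFace 3 P F → F = P := by
    rintro F ⟨hne, hexp, hrk⟩
    obtain ⟨l, hl⟩ := hexp hne
    have htop : vectorSpan ℝ F = ⊤ := Submodule.eq_top_of_finrank_eq (by rw [hrk]; simp)
    have hl0 : l = 0 := by
      have hker : vectorSpan ℝ F ≤ LinearMap.ker (l : E 3 →ₗ[ℝ] ℝ) := by
        rw [vectorSpan_def, Submodule.span_le]
        rintro _ ⟨x, hx, y, hy, rfl⟩
        rw [hl] at hx hy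
        simp only [vsub_eq_sub, SetLike.mem_coe, LinearMap.mem_ker, ContinuousLinearMap.coe_coe,
          map_sub]
        have := hx.2 y hy.1
        have := hy.2 x hx.1
        linarith
      rw [htop, top_le_iff, LinearMap.ker_eq_top] at hker
      ext x
      have := congrArg (fun g : E 3 →ₗ[ℝ] ℝ => g x) hker
      simpa using this
    rw [hl, hl0]
    ext x
    simp
  unfold zeta
  rw [tsum_eq_single (⟨P, hPface⟩ : {F : Set (E 3) // IsKFace 3 P F})]
  · rw [EuclideanSpace.euclideanHausdorffMeasure_eq_volume]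
  · rintro ⟨F, hF⟩ hne
    exact absurd (Subtype.ext (huniq F hF)) hne

lemma Good.zeta_one_ne_top [Fintype ι] {n : ι → E 3} {h : ι → ℝ} (hg : Good n h) :
    zeta 1 (Poly n h) ≠ ∞ := by
  intro htop
  have h1 := hg.zeta_one
  rw [htop, ENNReal.mul_top cst_ne_zero] at h1
  have h2 : ∑ i, MM (Fac n h i) < ∞ := by
    rw [ENNReal.sum_lt_top]
    intro i _
    exact lt_top_iff_ne_top.2 (MM_ne_top (hg.bdd.subset (ed_Fac_subset n h i)))
  rw [← h1] at h2
  exact lt_irrefl _ h2

lemma Good.zeta_one_ne_zero [Fintype ι] {n : ι → E 3} {h : ι → ℝ} (hg : Good n h) :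
    zeta 1 (Poly n h) ≠ 0 := by
  intro h0
  obtain ⟨z, hz⟩ := hg.slater
  obtain ⟨d, hd⟩ := exists_ne (0 : E 3)
  obtain ⟨ε, hε, h1, -⟩ := ed_move (n := n) (h := h) (x₀ := z) (d := d) (fun i => (hz i).le)
    (fun i hi => absurd hi (hz i).ne)
  have h2 := hg.diam_le h1 (fun i => (hz i).le)
  rw [h0] at h2
  have h3 : edist (z + ε • d) z = 0 := by
    have := le_antisymm h2 bot_le
    rcases mul_eq_zero.1 this with h | h
    · norm_num at h
    · exact h
  rw [edist_eq_zero] at h3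
  have h4 : ε • d = 0 := by simpa using h3
  rcases smul_eq_zero.1 h4 with h | h
  · exact hε.ne' h
  · exact hd h

end Melzak
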