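import Pool.Agent.Helper27.Melzak.Poly

/-!
Existence of irredundant representations.
-/

open MeasureTheory Set Filter Topology
open scoped ENNReal InnerProductSpace

namespace Melzak

variable {ι : Type*}

/-- the strict polyhedron is open -/
private lemma isOpen_strict [Fintype ι] (n : ι → E 3) (h : ι → ℝ) :
    IsOpen {x : E 3 | ∀ i, ⟪n i, x⟫_ℝ < h i} := by
  have : {x : E 3 | ∀ i, ⟪n i, x⟫_ℝ < h i} = ⋂ i, {x : E 3 | ⟪n i, x⟫_ℝ < h i} := by
    ext x; simp
  rw [this]
  exact isOpen_iInter_of_finite fun i => isOpen_lt (by fun_prop) continuous_const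

private lemma strict_of_interior {n : E 3} {h : ℝ} (hn : ‖n‖ = 1) {P : Set (E 3)}
    (hP : ∀ x ∈ P, ⟪n, x⟫_ℝ ≤ h) {z : E 3} (hz : z ∈ interior P) : ⟪n, z⟫_ℝ < h := by
  rw [mem_interior_iff_mem_nhds, Metric.mem_nhds_iff] at hz
  obtain ⟨ε, hε, hball⟩ := hz
  have h1 : z + (ε / 2) • n ∈ P := by
    apply hball
    rw [Metric.mem_ball, dist_eq_norm, add_sub_cancel_left, norm_smul, hn, mul_one,
      Real.norm_eq_abs, abs_of_pos (by positivity)]
    linarith
  have h2 := hP _ h1
  rw [inner_add_right, inner_smul_right, real_inner_self_eq_norm_sq, hn] at h2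
  linarith

/-- A family with unit normals, a strict interior point and a bounded polyhedron has an irredundant
subfamily J with the same polyhedron, such that moreover a point of the facet number a in J which is
strict for the other members of J is strict for all members of the family different from a. -/
lemma exists_subfamily [Fintype ι] {n : ι → E 3} {h : ι → ℝ} (hu : ∀ i, ‖n i‖ = 1)
    (hb : Bornology.IsBounded (Poly n h)) (hs : ∃ z, ∀ i, ⟪n i, z⟫_ℝ < h i) :
    ∃ J : Finset ι, Good (fun i : J => n i) (fun i : J => h i) ∧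
      Poly (fun i : J => n i) (fun i : J => h i) = Poly n h ∧
      ∀ a ∈ J, ∀ j, (n j ≠ n a ∨ h j ≠ h a) → ∀ y ∈ Poly n h, ⟪n a, y⟫_ℝ = h a →
        (∀ b ∈ J, b ≠ a → ⟪n b, y⟫_ℝ < h b) → ⟪n j, y⟫_ℝ < h j := by
  classical
  obtain ⟨z, hz⟩ := hs
  -- a representation with the minimal number of constraints
  have hex : ∃ k : ℕ, ∃ J : Finset ι, J.card = k ∧
      {x : E 3 | ∀ i ∈ J, ⟪n i, x⟫_ℝ ≤ h i} = Poly n h :=
    ⟨_, Finset.univ, rfl, by ext x; simp [Poly]⟩
  obtain ⟨J, hJk, hJ⟩ := Nat.find_spec hex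
  have hmin : ∀ J' : Finset ι, J'.card < J.card →
      {x : E 3 | ∀ i ∈ J', ⟪n i, x⟫_ℝ ≤ h i} ≠ Poly n h := by
    intro J' hlt heq
    rw [hJk] at hlt
    exact Nat.find_min hex hlt ⟨J', rfl, heq⟩
  have hPJ : Poly (fun i : J => n i) (fun i : J => h i) = Poly n h := by
    rw [← hJ]
    ext x
    simp [Poly]
  have hmem : ∀ x : E 3, (∀ i ∈ J, ⟪n i, x⟫_ℝ ≤ h i) → x ∈ Poly n h := by
    intro x hx
    rw [← hJ]
    exact hx
  have hirr : ∀ a ∈ J, ∃ y, ⟪n a, y⟫_ℝ = h a ∧ ∀ b ∈ J, b ≠ a → ⟪n b, y⟫_ℝ < h b := by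
    intro a ha
    have h1 := hmin (J.erase a) (Finset.card_erase_lt_of_mem ha)
    have h2 : ∃ w : E 3, (∀ i ∈ J.erase a, ⟪n i, w⟫_ℝ ≤ h i) ∧ w ∉ Poly n h := by
      by_contra hcon
      push Not at hcon
      apply h1
      apply Subset.antisymm
      · intro w hw
        exact hcon w hw
      · intro w hw i _
        exact hw i
    obtain ⟨w, hw1, hw2⟩ := h2
    have hwa : h a < ⟪n a, w⟫_ℝ := by
      by_contra hcon
      push Not at hcon
      apply hw2
      apply hmem
      intro i hi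
      by_cases hia : i = a
      · rw [hia]; exact hcon
      · exact hw1 i (Finset.mem_erase.mpr ⟨hia, hi⟩)
    have hza := hz a
    set s : ℝ := (h a - ⟪n a, z⟫_ℝ) / (⟪n a, w⟫_ℝ - ⟪n a, z⟫_ℝ) with hsdef
    have hden : 0 < ⟪n a, w⟫_ℝ - ⟪n a, z⟫_ℝ := by linarith
    have hs0 : 0 < s := div_pos (by linarith) hden
    have hs1 : s < 1 := by
      rw [hsdef, div_lt_one hden]
      linarith
    have hsm : s * (⟪n a, w⟫_ℝ - ⟪n a, z⟫_ℝ) = h a - ⟪n a, z⟫_ℝ := by
      rw [hsdef]
      field_simp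
    refine ⟨z + s • (w - z), ?_, ?_⟩
    · rw [inner_add_right, inner_smul_right, inner_sub_right, hsm]
      ring
    · intro b hbJ hba
      have h3 := hz b
      have h4 := hw1 b (Finset.mem_erase.mpr ⟨hba, hbJ⟩)
      rw [inner_add_right, inner_smul_right, inner_sub_right]
      nlinarith
  refine ⟨J, ⟨fun i => hu i, ?_, by rw [hPJ]; exact hb, ⟨z, fun i => hz i⟩⟩, hPJ, ?_⟩
  · rintro ⟨a, ha⟩
    obtain ⟨y, hy1, hy2⟩ := hirr a ha
    refine ⟨y, hy1, ?_⟩
    rintro ⟨b, hbJ⟩ hne
    exact hy2 b hbJ (fun hh => hne (Subtype.ext hh))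
  · intro a ha j hj y hy hya hyb
    have hyj : ⟪n j, y⟫_ℝ ≤ h j := hy j
    rcases hyj.lt_or_eq with hlt | heq
    · exact hlt
    exfalso
    -- orthogonality
    have horth : ∀ v : E 3, ⟪n a, v⟫_ℝ = 0 → ⟪n j, v⟫_ℝ = 0 := by
      intro v hv
      have hev : ∀ᶠ ε in 𝓝 (0 : ℝ), ∀ b ∈ J, b ≠ a → ⟪n b, y + ε • v⟫_ℝ < h b := by
        rw [Filter.eventually_all_finset]
        intro b hbJ
        by_cases hba : b = a
        · exact Filter.Eventually.of_forall fun ε hne => absurd hba hne
        · have hcont : ContinuousAt (fun ε : ℝ => ⟪n b, y + ε • v⟫_ℝ) 0 := by fun_prop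
          have h0 : (fun ε : ℝ => ⟪n b, y + ε • v⟫_ℝ) 0 < h b := by
            simpa using hyb b hbJ hba
          filter_upwards [hcont.eventually_lt_const h0] with ε hε _
          exact hε
      obtain ⟨ε, hε, hball⟩ := Metric.eventually_nhds_iff.mp hev
      have key : ∀ t : ℝ, dist t 0 < ε → t * ⟪n j, v⟫_ℝ ≤ 0 := by
        intro t ht
        have h1 : y + t • v ∈ Poly n h := by
          apply hmem
          intro i hi
          by_cases hia : i = a
          · rw [hia, inner_add_right, inner_smul_right, hv, hya]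
            simp
          · exact (hball ht i hi hia).le
        have h2 := h1 j
        rw [inner_add_right, inner_smul_right, heq] at h2
        linarith
      have k1 := key (ε / 2) (by rw [dist_zero_right, Real.norm_eq_abs, abs_of_pos] <;> linarith)
      have k2 := key (-(ε / 2)) (by
        rw [dist_zero_right, norm_neg, Real.norm_eq_abs, abs_of_pos] <;> linarith)
      nlinarith
    set c : ℝ := ⟪n a, n j⟫_ℝ with hc
    have hv0 : ⟪n a, n j - c • n a⟫_ℝ = 0 := by
      rw [inner_sub_right, inner_smul_right, real_inner_self_eq_norm_sq, hu a, ← hc]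
      ring
    have hv1 := horth _ hv0
    have hv2 : n j - c • n a = 0 := by
      rw [← inner_self_eq_zero (𝕜 := ℝ), inner_sub_left, hv1, inner_smul_left, hv0]
      simp
    have hnj : n j = c • n a := sub_eq_zero.mp hv2
    have hcabs : |c| = 1 := by
      have := hu j
      rw [hnj, norm_smul, hu a, mul_one, Real.norm_eq_abs] at this
      exact this
    have hc' : c = 1 ∨ c = -1 := by
      rcases abs_eq (zero_le_one' ℝ) |>.mp hcabs with h1 | h1
      · exact Or.inl h1
      · exact Or.inr h1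
    rcases hc' with h1 | h1
    · rw [h1, one_smul] at hnj
      rcases hj with h2 | h2
      · exact h2 hnj
      · apply h2
        rw [← heq, hnj, hya]
    · rw [h1, neg_smul, one_smul] at hnj
      have h3 := hz j
      have h4 := hz a
      rw [hnj, inner_neg_left] at h3 heq
      linarith

lemma Good.reindex {κ : Type*} (e : κ ≃ ι) {n : ι → E 3} {h : ι → ℝ} (hg : Good n h) :
    Good (n ∘ e) (h ∘ e) := by
  have hP : Poly (n ∘ e) (h ∘ e) = Poly n h := by
    ext x
    constructor
    · intro hx i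
      have := hx (e.symm i)
      simpa using this
    · intro hx i
      exact hx (e i)
  refine ⟨fun i => hg.unit (e i), ?_, by rw [hP]; exact hg.bdd, ?_⟩
  · intro i
    obtain ⟨y, hy1, hy2⟩ := hg.irr (e i)
    exact ⟨y, hy1, fun j hj => hy2 (e j) (fun hh => hj (e.injective hh))⟩
  · obtain ⟨z, hz⟩ := hg.slater
    exact ⟨z, fun i => hz (e i)⟩

private lemma poly_reindex {κ : Type*} (e : κ ≃ ι) (n : ι → E 3) (h : ι → ℝ) :
    Poly (n ∘ e) (h ∘ e) = Poly n h := by
  ext x
  constructor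
  · intro hx i
    have := hx (e.symm i)
    simpa using this
  · intro hx i
    exact hx (e i)

lemma exists_good {P : Set (E 3)} (hP : IsPolytope P) :
    ∃ (m : ℕ) (n : Fin m → E 3) (h : Fin m → ℝ), Good n h ∧ P = Poly n h := by
  classical
  obtain ⟨m, n, h, hPeq⟩ := hP.halfspaces
  obtain ⟨z, hz⟩ := hP.nonempty_interior
  have hzP : z ∈ P := interior_subset hz
  -- normalised constraints
  set κ := {i : Fin m // n i ≠ 0} with hκ
  set n' : κ → E 3 := fun i => (‖n i‖)⁻¹ • n i with hn'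
  set h' : κ → ℝ := fun i => (‖n i‖)⁻¹ * h i with hh'
  have hunit : ∀ i, ‖n' i‖ = 1 := by
    rintro ⟨i, hi⟩
    have : ‖n i‖ ≠ 0 := norm_ne_zero_iff.mpr hi
    simp only [hn', norm_smul, norm_inv, norm_norm]
    exact inv_mul_cancel₀ this
  have hPoly : Poly n' h' = P := by
    rw [hPeq]
    ext x
    constructor
    · intro hx i
      by_cases hi : n i = 0
      · have h1 : ⟪n i, z⟫_ℝ ≤ h i := by
          rw [hPeq] at hzP
          exact hzP i
        rw [hi, inner_zero_left] at h1 ⊢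
        exact h1
      · have h1 := hx ⟨i, hi⟩
        have hpos : 0 < ‖n i‖ := norm_pos_iff.mpr hi
        simp only [hn', hh', inner_smul_left, conj_trivial] at h1
        exact le_of_mul_le_mul_left h1 (by positivity)
    · intro hx i
      have h1 := hx i.1
      simp only [hn', hh', inner_smul_left, conj_trivial]
      exact mul_le_mul_of_nonneg_left h1 (by positivity)
  have hslater : ∃ z, ∀ i, ⟪n' i, z⟫_ℝ < h' i := by
    refine ⟨z, fun i => strict_of_interior (hunit i) (P := P) ?_ hz⟩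
    intro x hx
    rw [← hPoly] at hx
    exact hx i
  obtain ⟨J, hJ1, hJ2, -⟩ := exists_subfamily hunit (by rw [hPoly]; exact hP.bounded) hslater
  have e : Fin (Fintype.card J) ≃ J := (Fintype.equivFin J).symm
  refine ⟨Fintype.card J, (fun i : J => n' i) ∘ e, (fun i : J => h' i) ∘ e, hJ1.reindex e, ?_⟩
  rw [poly_reindex e, hJ2, hPoly]

lemma Good.isPolytope [Fintype ι] {n : ι → E 3} {h : ι → ℝ} (hg : Good n h) :
    IsPolytope (Poly n h) := by
  have e : Fin (Fintype.card ι) ≃ ι := (Fintype.equivFin ι).symm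
  refine ⟨⟨Fintype.card ι, n ∘ e, h ∘ e, (poly_reindex e n h).symm⟩, hg.bdd, ?_⟩
  obtain ⟨z, hz⟩ := hg.slater
  refine ⟨z, ?_⟩
  rw [mem_interior]
  exact ⟨{x : E 3 | ∀ i, ⟪n i, x⟫_ℝ < h i}, fun x hx i => (hx i).le, isOpen_strict n h, hz⟩

end Melzak
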