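import Pool.Agent.Helper27.Melzak.Scale
import Pool.Agent.Helper27.Melzak.Lsc
import Pool.Agent.Helper27.Melzak.Irred
import Pool.Agent.Helper27.Melzak.Slab
import Pool.Agent.Helper27.Melzak.Cube

/-!
Existence of maximisers for a bounded number of facets.
-/

open MeasureTheory Set Filter Topology
open scoped ENNReal InnerProductSpace

namespace Melzak

/-- Normalisation: total edge length one, the origin inside. -/
lemma Good.normalise {ι : Type*} [Fintype ι] {n : ι → E 3} {h : ι → ℝ} (hg : Good n h) :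
    ∃ h' : ι → ℝ, Good n h' ∧ rat n h' = rat n h ∧ ∑ i, MM (Fac n h' i) = cst ∧
      (0 : E 3) ∈ Poly n h' := by
  obtain ⟨z, hz⟩ := hg.slater
  have hL := hg.zeta_one
  have h0 := hg.zeta_one_ne_zero
  have h1 := hg.zeta_one_ne_top
  set L := zeta 1 (Poly n h) with hLdef
  have hpos : 0 < L.toReal := ENNReal.toReal_pos h0 h1
  have ht : 0 < L.toReal⁻¹ := inv_pos.2 hpos
  have hg1 := (hg.translate (-z)).smul ht
  refine ⟨_, hg1, ?_, ?_, ?_⟩
  · rw [rat_smul _ _ ht, rat_translate]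
  · simp only [Fac_smul n _ ht, MM_smul _ ht.le, Fac_translate n h, MM_translate]
    rw [← Finset.mul_sum, ← hL, ENNReal.ofReal_inv_of_pos hpos, ENNReal.ofReal_toReal h1]
    rw [mul_comm cst L, ← mul_assoc, ENNReal.inv_mul_cancel h0 h1, one_mul]
  · intro i
    simp only [inner_zero_right, inner_neg_right]
    have := hz i
    apply mul_nonneg ht.le
    linarith

lemma vol_limit {m : ℕ} (n : Fin m → E 3) (h : Fin m → ℝ) {c : ℝ≥0∞}
    (hc : ∀ ε : ℝ, 0 < ε → c ≤ volume {x : E 3 | x ∈ Metric.closedBall (0 : E 3) 1 ∧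
      ∀ i, ⟪n i, x⟫_ℝ ≤ h i + ε}) :
    c ≤ volume {x : E 3 | x ∈ Metric.closedBall (0 : E 3) 1 ∧ ∀ i, ⟪n i, x⟫_ℝ ≤ h i} := by
  set s : ℕ → Set (E 3) := fun k => {x : E 3 | x ∈ Metric.closedBall (0 : E 3) 1 ∧
      ∀ i, ⟪n i, x⟫_ℝ ≤ h i + 1 / ((k : ℝ) + 1)} with hs
  have hclosed : ∀ k, IsClosed (s k) := by
    intro k
    have : s k = Metric.closedBall (0 : E 3) 1 ∩ ⋂ i, {x | ⟪n i, x⟫_ℝ ≤ h i + 1 / ((k : ℝ) + 1)} := by
      ext x; simp [hs]
    rw [this]
    exact Metric.isClosed_closedBall.inter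
      (isClosed_iInter fun i => isClosed_le (by fun_prop) continuous_const)
  have hanti : Antitone s := by
    intro k l hkl x hx
    refine ⟨hx.1, fun i => (hx.2 i).trans ?_⟩
    have : (1 : ℝ) / ((l : ℝ) + 1) ≤ 1 / ((k : ℝ) + 1) := by
      apply one_div_le_one_div_of_le (by positivity)
      have : (k : ℝ) ≤ l := by exact_mod_cast hkl
      linarith
    linarith
  have hInter : ⋂ k, s k = {x : E 3 | x ∈ Metric.closedBall (0 : E 3) 1 ∧
      ∀ i, ⟪n i, x⟫_ℝ ≤ h i} := by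
    ext x
    simp only [mem_iInter, hs, Set.mem_ofPred_eq]
    constructor
    · intro hx
      refine ⟨(hx 0).1, fun i => ?_⟩
      have h1 : Tendsto (fun k : ℕ => h i + 1 / ((k : ℝ) + 1)) atTop (𝓝 (h i + 0)) :=
        tendsto_const_nhds.add tendsto_one_div_add_atTop_nhds_zero_nat
      rw [add_zero] at h1
      exact ge_of_tendsto' h1 fun k => (hx k).2 i
    · rintro ⟨hx1, hx2⟩ k
      refine ⟨hx1, fun i => (hx2 i).trans ?_⟩
      have : (0 : ℝ) ≤ 1 / ((k : ℝ) + 1) := by positivity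
      linarith
  have hfin : ∃ k, volume (s k) ≠ ∞ := by
    refine ⟨0, ?_⟩
    have h1 : volume (s 0) ≤ volume (Metric.closedBall (0 : E 3) 1) :=
      measure_mono fun x hx => hx.1
    exact (h1.trans_lt measure_closedBall_lt_top).ne
  have ht := tendsto_measure_iInter_atTop (μ := (volume : Measure (E 3)))
    (fun k => (hclosed k).measurableSet.nullMeasurableSet) hanti hfin
  rw [hInter] at ht
  refine ge_of_tendsto' ht fun k => hc _ (by positivity)

lemma exists_max_fixed (m : ℕ) (hne : ∃ (n : Fin m → E 3) (h : Fin m → ℝ), Good n h) :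
    ∃ m' ≤ m, ∃ (n' : Fin m' → E 3) (h' : Fin m' → ℝ), Good n' h' ∧
      ∀ (n : Fin m → E 3) (h : Fin m → ℝ), Good n h → rat n h ≤ rat n' h' := by
  classical
  set T : Set ℝ≥0∞ := {r | ∃ (n : Fin m → E 3) (h : Fin m → ℝ), Good n h ∧ rat n h = r} with hT
  have hTne : T.Nonempty := by
    obtain ⟨n, h, hg⟩ := hne
    exact ⟨_, n, h, hg, rfl⟩
  obtain ⟨r, -, hr, hrT⟩ := exists_seq_tendsto_sSup hTne (OrderTop.bddAbove T)
  set S := sSup T with hS
  have hSpos : 0 < S := by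
    obtain ⟨n, h, hg⟩ := hne
    have h1 : rat n h ≤ S := le_sSup ⟨n, h, hg, rfl⟩
    refine lt_of_lt_of_le ?_ h1
    unfold rat
    rw [← hg.zeta_one]
    apply ENNReal.div_pos
    · obtain ⟨z, hz⟩ := hg.slater
      have hopen : IsOpen {x : E 3 | ∀ i, ⟪n i, x⟫_ℝ < h i} := by
        have : {x : E 3 | ∀ i, ⟪n i, x⟫_ℝ < h i} = ⋂ i, {x | ⟪n i, x⟫_ℝ < h i} := by
          ext x; simp
        rw [this]
        exact isOpen_iInter_of_finite fun i => isOpen_lt (by fun_prop) continuous_const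
      have := hopen.measure_pos (volume : Measure (E 3)) ⟨z, hz⟩
      refine (this.trans_le (measure_mono ?_)).ne'
      intro x hx i
      exact (hx i).le
    · exact ENNReal.pow_ne_top (ENNReal.mul_ne_top cst_ne_top hg.zeta_one_ne_top)
  -- normalised sequence
  have hseq : ∀ k, ∃ p : (Fin m → E 3) × (Fin m → ℝ), Good p.1 p.2 ∧ rat p.1 p.2 = r k ∧
      ∑ i, MM (Fac p.1 p.2 i) = cst ∧ (0 : E 3) ∈ Poly p.1 p.2 := by
    intro k
    obtain ⟨n, h, hg, hgr⟩ := hrT k
    obtain ⟨h', h1, h2, h3, h4⟩ := hg.normalise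
    exact ⟨(n, h'), h1, h2.trans hgr, h3, h4⟩
  choose p hpg hpr hps hp0 using hseq
  have hzeta : ∀ k, zeta 1 (Poly (p k).1 (p k).2) = 1 := by
    intro k
    have h1 := (hpg k).zeta_one
    rw [hps k] at h1
    have h2 : cst * zeta 1 (Poly (p k).1 (p k).2) = cst * 1 := by rw [h1, mul_one]
    exact (ENNReal.mul_right_inj cst_ne_zero cst_ne_top).1 h2
  have hball : ∀ k, ∀ x ∈ Poly (p k).1 (p k).2, ‖x‖ ≤ 1 := by
    intro k x hx
    have h1 := (hpg k).diam_le hx (hp0 k)
    rw [hzeta k] at h1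
    have h2 : edist x 0 ≤ 1 := by
      calc edist x 0 ≤ 3 * edist x 0 := by
            conv_lhs => rw [← one_mul (edist x 0)]
            gcongr
            norm_num
        _ ≤ 1 := h1
    rw [edist_dist, ENNReal.ofReal_le_one, dist_zero_right] at h2
    exact h2
  have hvol : ∀ k, volume (Poly (p k).1 (p k).2) = r k * cst ^ 3 := by
    intro k
    rw [← hpr k]
    unfold rat
    rw [hps k, ENNReal.div_mul_cancel (pow_ne_zero _ cst_ne_zero) (ENNReal.pow_ne_top cst_ne_top)]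
  have hcomp : IsCompact (Metric.closedBall (0 : (Fin m → E 3) × (Fin m → ℝ)) 1) :=
    isCompact_closedBall _ _
  have hpmem : ∀ k, p k ∈ Metric.closedBall (0 : (Fin m → E 3) × (Fin m → ℝ)) 1 := by
    intro k
    rw [mem_closedBall_zero_iff, Prod.norm_def, max_le_iff]
    constructor
    · rw [pi_norm_le_iff_of_nonneg zero_le_one]
      exact fun i => ((hpg k).unit i).le
    · rw [pi_norm_le_iff_of_nonneg zero_le_one]
      intro i
      obtain ⟨y, hy, hy'⟩ := (hpg k).irr i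
      have hyP : y ∈ Poly (p k).1 (p k).2 := by
        intro j
        by_cases hj : j = i
        · rw [hj]; exact hy.le
        · exact (hy' j hj).le
      rw [← hy]
      calc ‖⟪(p k).1 i, y⟫_ℝ‖ ≤ ‖(p k).1 i‖ * ‖y‖ := norm_inner_le_norm _ _
        _ ≤ 1 * 1 := by
            gcongr
            · exact ((hpg k).unit i).le
            · exact hball k y hyP
        _ = 1 := one_mul 1
  obtain ⟨⟨n, h⟩, -, φ, hφ, hlim⟩ := hcomp.tendsto_subseq hpmem
  have hn : Tendsto (fun k => (p (φ k)).1) atTop (𝓝 n) :=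
    (continuous_fst.tendsto _).comp hlim
  have hh : Tendsto (fun k => (p (φ k)).2) atTop (𝓝 h) :=
    (continuous_snd.tendsto _).comp hlim
  have hunit : ∀ i, ‖n i‖ = 1 := by
    intro i
    have h1 : Tendsto (fun k => ‖(p (φ k)).1 i‖) atTop (𝓝 ‖n i‖) :=
      ((tendsto_pi_nhds.1 hn) i).norm
    have h2 : (fun k => ‖(p (φ k)).1 i‖) = fun _ => (1 : ℝ) := by
      funext k; exact (hpg (φ k)).unit i
    rw [h2] at h1
    exact tendsto_nhds_unique h1 tendsto_const_nhds |>.symm ▸ rfl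
  have hconv : ∀ (x : E 3) (j : Fin m),
      Tendsto (fun k => ⟪(p (φ k)).1 j, x⟫_ℝ - (p (φ k)).2 j) atTop (𝓝 (⟪n j, x⟫_ℝ - h j)) := by
    intro x j
    exact (((tendsto_pi_nhds.1 hn) j).inner tendsto_const_nhds).sub ((tendsto_pi_nhds.1 hh) j)
  -- volume of the limit
  have hrφ : Tendsto (fun k => r (φ k) * cst ^ 3) atTop (𝓝 (S * cst ^ 3)) :=
    ENNReal.Tendsto.mul_const (hr.comp hφ.tendsto_atTop) (Or.inr (ENNReal.pow_ne_top cst_ne_top))
  have hV0 : S * cst ^ 3 ≤ volume {x : E 3 | x ∈ Metric.closedBall (0 : E 3) 1 ∧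
      ∀ i, ⟪n i, x⟫_ℝ ≤ h i} := by
    apply vol_limit
    intro ε hε
    refine le_of_tendsto hrφ ?_
    have h1 : ∀ᶠ k in atTop, ∀ i, ‖(p (φ k)).1 i - n i‖ < ε / 2 := by
      rw [eventually_all]
      intro i
      have h2 : Tendsto (fun k => ‖(p (φ k)).1 i - n i‖) atTop (𝓝 0) := by
        have := (((tendsto_pi_nhds.1 hn) i).sub_const (n i)).norm
        simpa using this
      exact h2.eventually (gt_mem_nhds (half_pos hε))
    have h2 : ∀ᶠ k in atTop, ∀ i, (p (φ k)).2 i < h i + ε / 2 := by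
      rw [eventually_all]
      intro i
      exact ((tendsto_pi_nhds.1 hh) i).eventually (gt_mem_nhds (by linarith))
    filter_upwards [h1, h2] with k hk1 hk2
    rw [← hvol (φ k)]
    refine measure_mono fun x hx => ?_
    have hx1 := hball (φ k) x hx
    refine ⟨by rw [mem_closedBall_zero_iff]; exact hx1, fun i => ?_⟩
    have e1 : ⟪n i, x⟫_ℝ = ⟪(p (φ k)).1 i, x⟫_ℝ - ⟪(p (φ k)).1 i - n i, x⟫_ℝ := by
      rw [inner_sub_left]; ring
    have e2 : |⟪(p (φ k)).1 i - n i, x⟫_ℝ| ≤ ε / 2 * 1 := by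
      refine (abs_real_inner_le_norm _ _).trans ?_
      gcongr
      exact (hk1 i).le
    have e3 := abs_le.1 e2
    have e4 := hx i
    have e5 := hk2 i
    rw [e1]
    linarith [e3.1]
  have hVpos : 0 < S * cst ^ 3 := ENNReal.mul_pos hSpos.ne' (pow_ne_zero _ cst_ne_zero)
  -- Slater point
  obtain ⟨z, hzb, hz⟩ : ∃ z : E 3, z ∈ Metric.closedBall (0 : E 3) 1 ∧ ∀ i, ⟪n i, z⟫_ℝ < h i := by
    by_contra hcon
    push Not at hcon
    have hsub : {x : E 3 | x ∈ Metric.closedBall (0 : E 3) 1 ∧ ∀ i, ⟪n i, x⟫_ℝ ≤ h i} ⊆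
        ⋃ i, {x : E 3 | x ∈ Metric.closedBall (0 : E 3) 1 ∧ ⟪n i, x⟫_ℝ = h i} := by
      rintro x ⟨hx1, hx2⟩
      obtain ⟨i, hi⟩ := hcon x hx1
      exact mem_iUnion.2 ⟨i, hx1, le_antisymm (hx2 i) hi⟩
    have hnull : volume (⋃ i, {x : E 3 | x ∈ Metric.closedBall (0 : E 3) 1 ∧
        ⟪n i, x⟫_ℝ = h i}) = 0 := by
      rw [measure_iUnion_null_iff]
      intro i
      have := volume_slab (hunit i) (S := {x : E 3 | x ∈ Metric.closedBall (0 : E 3) 1 ∧
        ⟪n i, x⟫_ℝ = h i}) (q := h i) (δ := 0) (ρ := 2) le_rfl (by norm_num)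
        (fun x hx => by rw [hx.2]; linarith) (fun x hx => hx.2.le)
        (fun x hx y hy => by
          have h1 := mem_closedBall_zero_iff.1 hx.1
          have h2 := mem_closedBall_zero_iff.1 hy.1
          rw [dist_eq_norm]
          exact (norm_sub_le _ _).trans (by linarith))
      simpa using this
    have := measure_mono_null hsub hnull
    rw [this] at hV0
    exact absurd hV0 (not_le.2 hVpos)
  -- boundedness
  have hbd : ∀ x ∈ Poly n h, x ∈ Metric.closedBall (0 : E 3) 1 := by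
    intro x hx
    by_contra hxn
    rw [mem_closedBall_zero_iff, not_le] at hxn
    have hcont : Tendsto (fun θ : ℝ => ‖z + θ • (x - z)‖) (𝓝[<] 1) (𝓝 ‖z + (1 : ℝ) • (x - z)‖) := by
      apply Tendsto.mono_left _ nhdsWithin_le_nhds
      apply Continuous.tendsto
      fun_prop
    have h1 : ‖z + (1 : ℝ) • (x - z)‖ = ‖x‖ := by simp
    rw [h1] at hcont
    have h2 := hcont.eventually (lt_mem_nhds hxn)
    have h3 : ∀ᶠ θ : ℝ in 𝓝[<] 1, 0 < θ :=
      nhdsWithin_le_nhds (lt_mem_nhds zero_lt_one)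
    obtain ⟨θ, ⟨hθ1, hθ0⟩, hθ2⟩ := ((h2.and h3).and self_mem_nhdsWithin).exists
    have hθ3 : θ < 1 := hθ2
    have hstr : ∀ i, ⟪n i, z + θ • (x - z)⟫_ℝ - h i < 0 := by
      intro i
      rw [inner_add_right, inner_smul_right, inner_sub_right]
      have a1 := hz i
      have a2 := hx i
      nlinarith
    have h4 : ∀ᶠ k in atTop, ∀ i, ⟪(p (φ k)).1 i, z + θ • (x - z)⟫_ℝ - (p (φ k)).2 i < 0 := by
      rw [eventually_all]
      intro i
      exact (hconv _ i).eventually (gt_mem_nhds (hstr i))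
    obtain ⟨k, hk⟩ := h4.exists
    have := hball (φ k) (z + θ • (x - z)) (fun i => by linarith [hk i])
    linarith
  have hbdd : Bornology.IsBounded (Poly n h) :=
    Metric.isBounded_closedBall.subset hbd
  have hV1 : S * cst ^ 3 ≤ volume (Poly n h) := by
    refine hV0.trans (measure_mono ?_)
    rintro x ⟨-, hx⟩
    exact hx
  obtain ⟨J, hJg, hJP, hJs⟩ := exists_subfamily hunit hbdd ⟨z, hz⟩
  have hlsc := lsc_sum hn hh (fun k => hpg (φ k)) J hJg hJP hJs
  have hconst : (fun k => ∑ i, MM (Fac (p (φ k)).1 (p (φ k)).2 i)) = fun _ => cst := by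
    funext k; exact hps (φ k)
  rw [hconst, liminf_const] at hlsc
  have hratJ : S ≤ rat (fun i : J => n i) (fun i : J => h i) := by
    unfold rat
    rw [hJP]
    rw [ENNReal.le_div_iff_mul_le]
    · refine le_trans ?_ hV1
      gcongr
    · left
      apply pow_ne_zero
      rw [← hJg.zeta_one]
      exact mul_ne_zero cst_ne_zero hJg.zeta_one_ne_zero
    · left
      apply ENNReal.pow_ne_top
      exact (hlsc.trans_lt (lt_top_iff_ne_top.2 cst_ne_top)).ne
  have e := (Fintype.equivFin J).symm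
  have hcard : Fintype.card J ≤ m := by
    rw [Fintype.card_coe]
    simpa using Finset.card_le_univ J
  refine ⟨Fintype.card J, hcard, _, _, hJg.reindex e, ?_⟩
  intro n1 h1 hg1
  rw [rat_reindex]
  have hle : rat n1 h1 ≤ S := le_sSup (show rat n1 h1 ∈ T from ⟨n1, h1, hg1, rfl⟩)
  exact hle.trans hratJ

lemma exists_max (N : ℕ) (hN : 6 ≤ N) :
    ∃ m ≤ N, ∃ (n : Fin m → E 3) (h : Fin m → ℝ), Good n h ∧
      ∀ m' ≤ N, ∀ (n' : Fin m' → E 3) (h' : Fin m' → ℝ), Good n' h' → rat n' h' ≤ rat n h := by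
  classical
  set Sm : ℕ → ℝ≥0∞ := fun m => ⨆ (p : (Fin m → E 3) × (Fin m → ℝ)) (_ : Good p.1 p.2),
    rat p.1 p.2 with hSm
  obtain ⟨m0, hm0, hmax⟩ := Finset.exists_max_image (Finset.range (N + 1)) Sm
    (Finset.nonempty_range_iff.2 (by omega))
  have hne : ∃ (n : Fin m0 → E 3) (h : Fin m0 → ℝ), Good n h := by
    by_contra hcon
    push Not at hcon
    have h0 : Sm m0 = 0 := by
      simp only [hSm]
      refine le_antisymm (iSup_le fun p => iSup_le fun hp => absurd hp (hcon p.1 p.2)) bot_le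
    obtain ⟨n, h, hg, hv, hz⟩ := exists_cube
    have h1 := hmax 6 (by simp; omega)
    rw [h0] at h1
    have h2 : rat n h ≤ Sm 6 := by
      simp only [hSm]
      exact le_iSup_of_le (n, h) (le_iSup_of_le hg le_rfl)
    have h3 : rat n h = 0 := le_antisymm (h2.trans h1) bot_le
    unfold rat at h3
    rw [hv, ENNReal.div_eq_zero_iff] at h3
    rcases h3 with h3 | h3
    · exact one_ne_zero h3
    · rw [← hg.zeta_one] at h3
      exact ENNReal.pow_ne_top (ENNReal.mul_ne_top cst_ne_top hg.zeta_one_ne_top) h3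
  obtain ⟨m', hm', n, h, hg, hle⟩ := exists_max_fixed m0 hne
  have hm0' : m0 ≤ N := by
    have := Finset.mem_range.1 hm0
    omega
  refine ⟨m', hm'.trans hm0', n, h, hg, ?_⟩
  intro m1 hm1 n1 h1 hg1
  calc rat n1 h1 ≤ Sm m1 := by
        simp only [hSm]
        exact le_iSup_of_le (n1, h1) (le_iSup_of_le hg1 le_rfl)
    _ ≤ Sm m0 := hmax m1 (by simp; omega)
    _ ≤ rat n h := by
        simp only [hSm]
        exact iSup_le fun p => iSup_le fun hp => hle _ _ hp

end Melzak
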