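import Pool.Agent.Helper27.Melzak.Defs

/-!
Lower semicontinuity of the volume.
-/

open MeasureTheory Set Filter Topology
open scoped ENNReal InnerProductSpace

namespace Melzak

/-- Lower semicontinuity of the volume at a convex body under Hausdorff convergence of polytopes. -/
lemma volume_le_liminf {K : Set (E 3)} (hK : IsBody K) {P : ℕ → Set (E 3)}
    (hP : ∀ n, IsPolytope (P n))
    (hc : Tendsto (fun n => Metric.hausdorffEDist (P n) K) atTop (𝓝 0)) :
    volume K ≤ liminf (fun n => volume (P n)) atTop := by
  obtain ⟨z, hz⟩ := hK.nonempty_interior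
  rw [mem_interior_iff_mem_nhds, Metric.mem_nhds_iff] at hz
  obtain ⟨r, hr, hball⟩ := hz
  -- a smaller homothetic copy of `K` is contained in `P n` for large `n`
  have key : ∀ l : ℝ, 0 < l → l < 1 → ENNReal.ofReal (l ^ 3) * volume K ≤
      liminf (fun n => volume (P n)) atTop := by
    intro l hl0 hl1
    set ρ : ℝ := (1 - l) * (r / 2) with hρ
    have hρpos : 0 < ρ := by
      have : 0 < 1 - l := by linarith
      positivity
    have hev : ∀ᶠ n in atTop, Metric.hausdorffEDist (P n) K < ENNReal.ofReal ρ :=
      hc.eventually_lt_const (by positivity)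
    apply le_liminf_of_le
    · isBoundedDefault
    filter_upwards [hev] with n hn
    have hsub : AffineMap.homothety z l '' K ⊆ P n := by
      rintro _ ⟨k, hk, rfl⟩
      obtain ⟨m, nv, h, hPn⟩ := (hP n).halfspaces
      set x : E 3 := AffineMap.homothety z l k with hx
      have hxe : x = l • (k - z) + z := by
        rw [hx, AffineMap.homothety_apply, vsub_eq_sub, vadd_eq_add]
      by_contra hxP
      rw [hPn] at hxP
      simp only [mem_setOf_eq, not_forall, not_le] at hxP
      obtain ⟨i, hi⟩ := hxP
      obtain ⟨p0, hp0⟩ := (hP n).nonempty_interior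
      have hp0' : p0 ∈ P n := interior_subset hp0
      have hni : nv i ≠ 0 := by
        intro h0
        rw [hPn] at hp0'
        have h1 := hp0' i
        rw [h0, inner_zero_left] at h1 hi
        linarith
      have hnpos : 0 < ‖nv i‖ := norm_pos_iff.mpr hni
      set u : E 3 := (‖nv i‖)⁻¹ • nv i with hu
      have hun : ‖u‖ = 1 := by
        rw [hu, norm_smul, norm_inv, norm_norm]
        exact inv_mul_cancel₀ hnpos.ne'
      have hinu : ⟪nv i, u⟫_ℝ = ‖nv i‖ := by
        rw [hu, inner_smul_right, real_inner_self_eq_norm_sq]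
        field_simp
      -- the point `x + ρ u` is in `K`
      have hw : z + (r / 2) • u ∈ K := by
        apply hball
        rw [Metric.mem_ball, dist_eq_norm, add_sub_cancel_left, norm_smul, hun, mul_one,
          Real.norm_eq_abs, abs_of_pos (by positivity)]
        linarith
      have hq : x + ρ • u ∈ K := by
        have h1 := hK.convex hk hw hl0.le (by linarith : (0 : ℝ) ≤ 1 - l) (by ring)
        convert h1 using 1
        rw [hxe, hρ]
        module
      have hq2 : ∃ p ∈ P n, edist (x + ρ • u) p < ENNReal.ofReal ρ := by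
        rw [Metric.hausdorffEDist_comm] at hn
        exact Metric.exists_edist_lt_of_hausdorffEDist_lt hq hn
      obtain ⟨p, hp, hpd⟩ := hq2
      have hpd' : ‖x + ρ • u - p‖ < ρ := by
        rw [edist_lt_ofReal, dist_eq_norm] at hpd
        exact hpd
      rw [hPn] at hp
      have h2 := hp i
      have h3 : ⟪nv i, x + ρ • u - p⟫_ℝ ≤ ‖nv i‖ * ‖x + ρ • u - p‖ := real_inner_le_norm _ _
      rw [inner_sub_right, inner_add_right, inner_smul_right, hinu] at h3
      have h4 : ‖nv i‖ * ‖x + ρ • u - p‖ < ‖nv i‖ * ρ := mul_lt_mul_of_pos_left hpd' hnpos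
      nlinarith
    have h1 := measure_mono (μ := volume) hsub
    rw [MeasureTheory.Measure.addHaar_image_homothety] at h1
    have h2 : Module.finrank ℝ (E 3) = 3 := by simp [E]
    rw [h2, abs_of_pos (by positivity)] at h1
    exact h1
  have hlim : Tendsto (fun l : ℝ => ENNReal.ofReal (l ^ 3) * volume K) (𝓝[<] 1)
      (𝓝 (ENNReal.ofReal (1 ^ 3) * volume K)) := by
    apply ENNReal.Tendsto.mul_const
    · apply ENNReal.tendsto_ofReal
      have : Tendsto (fun l : ℝ => l ^ 3) (𝓝 1) (𝓝 (1 ^ 3)) := (continuous_pow 3).tendsto 1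
      exact this.mono_left nhdsWithin_le_nhds
    · left
      simp
  have hval : ENNReal.ofReal (1 ^ 3) * volume K = volume K := by simp
  rw [hval] at hlim
  apply le_of_tendsto hlim
  have : Ioo (0 : ℝ) 1 ∈ 𝓝[<] (1 : ℝ) := Ioo_mem_nhdsLT (by norm_num)
  filter_upwards [this] with l hl
  exact key l hl.1 hl.2

end Melzak
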