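import Pool.Agent.Helper27.Melzak.Bound
import Pool.Agent.Helper27.Melzak.Exist
import Pool.Agent.Helper27.Melzak.Cube
import Pool.Agent.Helper27.Melzak.VolLim

/-!
The final argument.
-/

open MeasureTheory Set Filter Topology
open scoped ENNReal InnerProductSpace

namespace Melzak

private lemma fi_div_le_div {a b c d : ℝ≥0∞} (hb : b ≠ 0) (hb' : b ≠ ∞) (hd : d ≠ 0) (hd' : d ≠ ∞) :
    a / b ≤ c / d ↔ a * d ≤ c * b := by
  rw [ENNReal.div_le_iff hb hb', ← ENNReal.mul_div_right_comm, ENNReal.le_div_iff_mul_le (Or.inl hd)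
    (Or.inl hd')]

private lemma fi_rat_le {ι κ : Type*} [Fintype ι] [Fintype κ] {n : ι → E 3} {h : ι → ℝ}
    (hg : Good n h) {n' : κ → E 3} {h' : κ → ℝ} (hg' : Good n' h') :
    rat n' h' ≤ rat n h ↔
      volume (Poly n' h') * zeta 1 (Poly n h) ^ 3 ≤ volume (Poly n h) * zeta 1 (Poly n' h') ^ 3 := by
  have hc0 : cst ^ 3 ≠ 0 := pow_ne_zero _ cst_ne_zero
  have hct : cst ^ 3 ≠ ∞ := ENNReal.pow_ne_top cst_ne_top
  unfold rat
  rw [← hg.zeta_one, ← hg'.zeta_one, fi_div_le_div, mul_pow, mul_pow, mul_left_comm,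
    mul_left_comm (volume (Poly n h)), ENNReal.mul_le_mul_iff_right hc0 hct]
  · exact pow_ne_zero _ (mul_ne_zero cst_ne_zero hg'.zeta_one_ne_zero)
  · exact ENNReal.pow_ne_top (ENNReal.mul_ne_top cst_ne_top hg'.zeta_one_ne_top)
  · exact pow_ne_zero _ (mul_ne_zero cst_ne_zero hg.zeta_one_ne_zero)
  · exact ENNReal.pow_ne_top (ENNReal.mul_ne_top cst_ne_top hg.zeta_one_ne_top)

private lemma fi_volume_ne_zero {P : Set (E 3)} (hP : IsPolytope P) : volume P ≠ 0 := by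
  have h1 := isOpen_interior.measure_pos volume hP.nonempty_interior
  exact (lt_of_lt_of_le h1 (measure_mono interior_subset)).ne'

private lemma fi_volume_ne_top {P : Set (E 3)} (hP : IsPolytope P) : volume P ≠ ∞ :=
  hP.bounded.measure_lt_top.ne

private lemma fi_zeta_ne {P : Set (E 3)} (hP : IsPolytope P) : zeta 1 P ≠ 0 ∧ zeta 1 P ≠ ∞ := by
  obtain ⟨m, n, h, hg, rfl⟩ := exists_good hP
  exact ⟨hg.zeta_one_ne_zero, hg.zeta_one_ne_top⟩

/-- A maximiser beats the cube and so has at most 576 facets. -/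
private lemma fi_card {m : ℕ} {n : Fin m → E 3} {h : Fin m → ℝ} (hg : Good n h)
    (hmax : ∀ h' : Fin m → ℝ, Good n h' → rat n h' ≤ rat n h)
    (hcube : zeta 1 (Poly n h) ^ 3 ≤ volume (Poly n h) * 12 ^ 3) : m ≤ 576 := by
  have h1 := (card_le hg hmax).trans hcube
  rw [Fintype.card_fin] at h1
  have hv0 := fi_volume_ne_zero hg.isPolytope
  have hvt := fi_volume_ne_top hg.isPolytope
  have h2 : volume (Poly n h) * (3 * (m : ℝ≥0∞)) ≤ volume (Poly n h) * 12 ^ 3 := by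
    rw [mul_comm]; exact h1
  rw [ENNReal.mul_le_mul_iff_right hv0 hvt] at h2
  have h3 : ((3 * m : ℕ) : ℝ≥0∞) ≤ ((1728 : ℕ) : ℝ≥0∞) := by
    push_cast
    refine h2.trans (le_of_eq ?_)
    norm_num
  have h4 : 3 * m ≤ 1728 := by exact_mod_cast h3
  omega

/-- Among all 3-polytopes there is a maximiser of the ratio. -/
theorem exists_best : ∃ P : Set (E 3), IsPolytope P ∧ volume P ≠ 0 ∧
    ∀ P' : Set (E 3), IsPolytope P' → volume P' * zeta 1 P ^ 3 ≤ volume P * zeta 1 P' ^ 3 := by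
  obtain ⟨m, _, n, h, hg, hmax⟩ := exists_max 576 (by norm_num)
  obtain ⟨nc, hc, hgc, hvc, hzc⟩ := exists_cube
  refine ⟨Poly n h, hg.isPolytope, fi_volume_ne_zero hg.isPolytope, ?_⟩
  intro P' hP'
  obtain ⟨m', n', h', hg', rfl⟩ := exists_good hP'
  rw [← fi_rat_le hg hg']
  by_cases hm' : m' ≤ 576
  · exact hmax m' hm' n' h' hg'
  · push Not at hm'
    obtain ⟨m2, hm2, n2, h2, hg2, hmax2⟩ := exists_max m' (by omega)
    have h3 : rat n' h' ≤ rat n2 h2 := hmax2 m' le_rfl n' h' hg'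
    have h4 : rat nc hc ≤ rat n2 h2 := hmax2 6 (by omega) nc hc hgc
    rw [fi_rat_le hg2 hgc, hvc, one_mul] at h4
    have h5 : m2 ≤ 576 := fi_card hg2 (fun h'' hg'' => hmax2 m2 hm2 n2 h'' hg'')
      (h4.trans (by gcongr))
    exact h3.trans (hmax m2 h5 n2 h2 hg2)

private lemma fi_isBody {P : Set (E 3)} (hP : IsPolytope P) : IsBody P := by
  obtain ⟨m, n, h, rfl⟩ := hP.halfspaces
  refine ⟨Metric.isCompact_of_isClosed_isBounded ?_ hP.bounded, ?_, hP.nonempty_interior⟩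
  · have : {x : E 3 | ∀ i, ⟪n i, x⟫_ℝ ≤ h i} = ⋂ i, {x | ⟪n i, x⟫_ℝ ≤ h i} := by ext x; simp
    rw [this]
    exact isClosed_iInter fun i => isClosed_le (by fun_prop) continuous_const
  · intro x hx y hy a b ha hb hab i
    have h1 := hx i
    have h2 := hy i
    rw [inner_add_right, inner_smul_right, inner_smul_right]
    calc a * ⟪n i, x⟫_ℝ + b * ⟪n i, y⟫_ℝ ≤ a * h i + b * h i :=
          add_le_add (mul_le_mul_of_nonneg_left h1 ha) (mul_le_mul_of_nonneg_left h2 hb)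
      _ = h i := by rw [← add_mul, hab, one_mul]

private lemma fi_cube_rpow (x : ℝ≥0∞) : (x ^ 3) ^ (1 / (3 : ℝ)) = x := by
  rw [← ENNReal.rpow_natCast, ← ENNReal.rpow_mul]
  norm_num

/-- The value of the constant in terms of a maximiser. -/
private lemma fi_gamma {P : Set (E 3)} (hP : IsPolytope P)
    (hbest : ∀ P' : Set (E 3), IsPolytope P' →
      volume P' * zeta 1 P ^ 3 ≤ volume P * zeta 1 P' ^ 3) :
    gamma 3 3 * zeta 1 P = volume P ^ (1 / (3 : ℝ)) := by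
  obtain ⟨hz0, hzt⟩ := fi_zeta_ne hP
  have hv0 := fi_volume_ne_zero hP
  have hvt := fi_volume_ne_top hP
  set Γ : ℝ≥0∞ := volume P ^ (1 / (3 : ℝ)) / zeta 1 P with hΓ
  have hr0 : volume P ^ (1 / (3 : ℝ)) ≠ 0 := by
    rw [Ne, ENNReal.rpow_eq_zero_iff]
    rintro (⟨h, _⟩ | ⟨_, h⟩)
    · exact hv0 h
    · norm_num at h
  have hrt : volume P ^ (1 / (3 : ℝ)) ≠ ∞ := ENNReal.rpow_ne_top_of_nonneg (by norm_num) hvt
  have hΓ0 : Γ ≠ 0 := ENNReal.div_ne_zero.2 ⟨hr0, hzt⟩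
  have hΓt : Γ ≠ ∞ := ENNReal.div_ne_top hrt hz0
  have hΓz : Γ * zeta 1 P = volume P ^ (1 / (3 : ℝ)) := ENNReal.div_mul_cancel hz0 hzt
  -- every polytope
  have hall : ∀ P' : Set (E 3), IsPolytope P' → volume P' ≤ (Γ * zeta 1 P') ^ 3 := by
    intro P' hP'
    have h1 := hbest P' hP'
    have h2 : volume P = (Γ * zeta 1 P) ^ 3 := by
      rw [hΓz, ← ENNReal.rpow_natCast, ← ENNReal.rpow_mul]
      norm_num
    rw [h2, mul_pow, mul_right_comm, ← mul_pow] at h1
    exact (ENNReal.mul_le_mul_iff_left (pow_ne_zero _ hz0) (ENNReal.pow_ne_top hzt)).1 h1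
  have hle : gamma 3 3 ≤ Γ := by
    unfold gamma
    refine iSup_le fun K => iSup_le fun hK => iSup_le fun _ => ?_
    apply ENNReal.div_le_of_le_mul
    rw [← ENNReal.div_le_iff' hΓ0 hΓt]
    unfold zetaLim
    refine le_iInf fun Q => le_iInf fun hQ => le_iInf fun hc => ?_
    rw [ENNReal.div_le_iff' hΓ0 hΓt]
    have h1 : (⨅ (P : ℕ → Set (E 3)) (_ : ∀ n, IsPolytope (P n))
        (_ : Tendsto (fun n => Metric.hausdorffEDist (P n) K) atTop (𝓝 0)),
        liminf (fun n => zeta 3 (P n)) atTop) ≤ liminf (fun n => zeta 3 (Q n)) atTop :=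
      iInf_le_of_le Q (iInf_le_of_le hQ (iInf_le_of_le hc le_rfl))
    have h2 : liminf (fun n => zeta 3 (Q n)) atTop ≤
        liminf (fun n => (Γ * zeta 1 (Q n)) ^ 3) atTop := by
      refine liminf_le_liminf (Eventually.of_forall fun n => ?_)
      rw [zeta_three (hQ n)]
      exact hall _ (hQ n)
    have h3 : liminf (fun n => (Γ * zeta 1 (Q n)) ^ 3) atTop
        = (Γ * liminf (fun n => zeta 1 (Q n)) atTop) ^ 3 := by
      have hmono : Monotone (fun x : ℝ≥0∞ => (Γ * x) ^ 3) := fun x y hxy =>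
        pow_le_pow_left' (mul_le_mul_right hxy Γ) 3
      have hcont : Continuous (fun x : ℝ≥0∞ => (Γ * x) ^ 3) :=
        (ENNReal.continuous_pow 3).comp (ENNReal.continuous_const_mul hΓt)
      exact (hmono.map_liminf_of_continuousAt (fun n => zeta 1 (Q n)) hcont.continuousAt).symm
    calc _ ≤ ((Γ * liminf (fun n => zeta 1 (Q n)) atTop) ^ 3) ^ (1 / (3 : ℝ)) := by
          apply ENNReal.rpow_le_rpow _ (by norm_num)
          exact (h1.trans h2).trans h3.le
      _ = _ := fi_cube_rpow _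
  have hge : Γ ≤ gamma 3 3 := by
    have hbody := fi_isBody hP
    have h1 : zetaLim 1 P ≤ zeta 1 P := by
      unfold zetaLim
      refine iInf_le_of_le (fun _ => P) (iInf_le_of_le (fun _ => hP) (iInf_le_of_le ?_ ?_))
      · simp only [Metric.hausdorffEDist_self]
        exact tendsto_const_nhds
      · simp
    have h2 : volume P ≤ zetaLim 3 P := by
      unfold zetaLim
      refine le_iInf fun Q => le_iInf fun hQ => le_iInf fun hc => ?_
      refine (volume_le_liminf hbody hQ hc).trans (liminf_le_liminf (Eventually.of_forall fun n => ?_))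
      rw [zeta_three (hQ n)]
    have h3 : zetaLim 1 P < ∞ := lt_of_le_of_lt h1 hzt.lt_top
    have h4 : zetaLim 3 P ^ (1 / ((3 : ℕ) : ℝ)) / zetaLim 1 P ≤ gamma 3 3 := by
      unfold gamma
      exact le_iSup_of_le P (le_iSup_of_le hbody (le_iSup_of_le h3 le_rfl))
    refine le_trans ?_ h4
    rw [hΓ]
    apply ENNReal.div_le_div _ h1
    norm_num
    exact ENNReal.rpow_le_rpow h2 (by norm_num)
  rw [le_antisymm hle hge, hΓz]

theorem main : ∃ P : Set (E 3), IsPolytope P ∧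
    zeta 3 P ^ (1 / (3 : ℝ)) = gamma 3 3 * zeta 1 P := by
  obtain ⟨P, hP, _, hbest⟩ := exists_best
  exact ⟨P, hP, by rw [zeta_three hP, fi_gamma hP hbest]⟩

theorem gamma_ne_top : gamma 3 3 ≠ ∞ := by
  obtain ⟨P, hP, _, hbest⟩ := exists_best
  intro hh
  have h1 := fi_gamma hP hbest
  rw [hh, ENNReal.top_mul (fi_zeta_ne hP).1] at h1
  exact ENNReal.rpow_ne_top_of_nonneg (by norm_num) (fi_volume_ne_top hP) h1.symm

theorem zeta_one_ne {P : Set (E 3)} (hP : IsPolytope P) : zeta 1 P ≠ 0 ∧ zeta 1 P ≠ ∞ :=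
  fi_zeta_ne hP

theorem main_card {P : Set (E 3)} (hP : IsPolytope P)
    (h : zeta 3 P ^ (1 / (3 : ℝ)) = gamma 3 3 * zeta 1 P) :
    {F | IsKFace 2 P F}.encard ≤ 576 := by
  obtain ⟨P0, hP0, _, hbest0⟩ := exists_best
  have h0 := fi_gamma hP0 hbest0
  rw [zeta_three hP] at h
  obtain ⟨hz0, hzt⟩ := fi_zeta_ne hP
  obtain ⟨hz00, hz0t⟩ := fi_zeta_ne hP0
  have hcube : ∀ Q : Set (E 3), (volume Q ^ (1 / (3 : ℝ))) ^ 3 = volume Q := by
    intro Q
    rw [← ENNReal.rpow_natCast, ← ENNReal.rpow_mul]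
    norm_num
  have hbest : ∀ P' : Set (E 3), IsPolytope P' →
      volume P' * zeta 1 P ^ 3 ≤ volume P * zeta 1 P' ^ 3 := by
    intro P' hP'
    have h1 := hbest0 P' hP'
    rw [← hcube P0, ← h0, mul_pow, mul_right_comm] at h1
    have h2 := (ENNReal.mul_le_mul_iff_left (pow_ne_zero _ hz00) (ENNReal.pow_ne_top hz0t)).1 h1
    rw [← hcube P, h, mul_pow, mul_right_comm]
    gcongr
  obtain ⟨m, n, k, hg, rfl⟩ := exists_good hP
  obtain ⟨nc, hc, hgc, hvc, hzc⟩ := exists_cube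
  have h2 := hbest _ hgc.isPolytope
  rw [hvc, one_mul] at h2
  have h5 : m ≤ 576 := fi_card hg (fun h'' hg'' => (fi_rat_le hg hg'').2 (hbest _ hg''.isPolytope))
    (h2.trans (by gcongr))
  have h6 := hg.facets_le
  rw [Fintype.card_fin] at h6
  exact h6.trans (by exact_mod_cast h5)

end Melzak
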