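import Pool.Agent.Helper27.Melzak.Edges

/-!
The key inequality: superadditivity of the edge length in the support numbers.
-/

open MeasureTheory Set Filter Topology
open scoped ENNReal InnerProductSpace Pointwise

namespace Melzak

variable {ι : Type*}

/-- The cube of the volume ratio. -/
noncomputable def rat [Fintype ι] (n : ι → E 3) (h : ι → ℝ) : ℝ≥0∞ :=
  volume (Poly n h) / (∑ i, MM (Fac n h i)) ^ 3

lemma key_isClosed_poly (n : ι → E 3) (h : ι → ℝ) : IsClosed (Poly n h) := by
  unfold Poly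
  rw [ofPred_forall]
  exact isClosed_iInter fun i => isClosed_le (by fun_prop) continuous_const

lemma key_isClosed_fac (n : ι → E 3) (h : ι → ℝ) (i : ι) : IsClosed (Fac n h i) := by
  have e : Fac n h i = Poly n h ∩ {x | ⟪n i, x⟫_ℝ = h i} := rfl
  rw [e]
  exact (key_isClosed_poly n h).inter (isClosed_eq (by fun_prop) continuous_const)

lemma key_convex_poly (n : ι → E 3) (h : ι → ℝ) : Convex ℝ (Poly n h) := by
  intro x hx y hy a b ha hb hab i
  rw [inner_add_right, inner_smul_right, inner_smul_right]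
  have h1 := mul_le_mul_of_nonneg_left (hx i) ha
  have h2 := mul_le_mul_of_nonneg_left (hy i) hb
  have h3 : a * h i + b * h i = h i := by rw [← add_mul, hab, one_mul]
  linarith

lemma key_convex_fac (n : ι → E 3) (h : ι → ℝ) (i : ι) : Convex ℝ (Fac n h i) := by
  intro x hx y hy a b ha hb hab
  refine ⟨key_convex_poly n h hx.1 hy.1 ha hb hab, ?_⟩
  rw [inner_add_right, inner_smul_right, inner_smul_right, hx.2, hy.2, ← add_mul, hab, one_mul]

lemma key_compact_fac {n : ι → E 3} {h : ι → ℝ} (hb : Bornology.IsBounded (Poly n h)) (i : ι) :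
    IsCompact (Fac n h i) :=
  Metric.isCompact_of_isClosed_isBounded (key_isClosed_fac n h i) (hb.subset fun _ hx => hx.1)

lemma Good.sum_eq [Fintype ι] {n : ι → E 3} {h : ι → ℝ} (hg : Good n h) :
    ∑ i, MM (Fac n h i) ≠ ∞ ∧ ∑ i, MM (Fac n h i) ≠ 0 := by
  rw [← hg.zeta_one]
  exact ⟨ENNReal.mul_ne_top cst_ne_top hg.zeta_one_ne_top,
    mul_ne_zero cst_ne_zero hg.zeta_one_ne_zero⟩

lemma Good.volume_pos {n : ι → E 3} {h : ι → ℝ} [Fintype ι] (hg : Good n h) :
    volume (Poly n h) ≠ 0 := by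
  obtain ⟨z, hz⟩ := hg.slater
  have hop : IsOpen {x : E 3 | ∀ i, ⟪n i, x⟫_ℝ < h i} := by
    rw [ofPred_forall]
    exact isOpen_iInter_of_finite fun i => isOpen_lt (by fun_prop) continuous_const
  have h1 : 0 < volume {x : E 3 | ∀ i, ⟪n i, x⟫_ℝ < h i} := hop.measure_pos volume ⟨z, hz⟩
  have h2 : volume {x : E 3 | ∀ i, ⟪n i, x⟫_ℝ < h i} ≤ volume (Poly n h) :=
    measure_mono fun x hx i => (hx i).le
  exact (h1.trans_le h2).ne'

lemma key [Fintype ι] {n : ι → E 3} {h : ι → ℝ} (hg : Good n h)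
    (hmax : ∀ h' : ι → ℝ, Good n h' → rat n h' ≤ rat n h)
    {q : ι → ℝ} (hq : ∀ i, q i ≤ h i) (hne : ∀ i, (Fac n q i).Nonempty) :
    ∑ i, MM (Fac n q i) ≤ ∑ i, MM (Fac n h i) := by
  classical
  rcases isEmpty_or_nonempty ι with hι | ⟨⟨i₀⟩⟩
  · simp
  set ht : ℝ → ι → ℝ := fun t i => h i - t * q i with hht
  have hQP : Poly n q ⊆ Poly n h := fun x hx i => (hx i).trans (hq i)
  have hQb : Bornology.IsBounded (Poly n q) := hg.bdd.subset hQP
  obtain ⟨x0, hx0⟩ := hne i₀
  -- P_t + t Q ⊆ P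
  have hadd : ∀ t, 0 ≤ t → ∀ x ∈ Poly n (ht t), ∀ y ∈ Poly n q, x + t • y ∈ Poly n h := by
    intro t h0 x hx y hy i
    rw [inner_add_right, inner_smul_right]
    have h1 := hx i
    have h2 := mul_le_mul_of_nonneg_left (hy i) h0
    simp only [hht] at h1
    linarith
  have hbt : ∀ t, 0 ≤ t → Bornology.IsBounded (Poly n (ht t)) := by
    intro t h0
    obtain ⟨R, hR⟩ := hg.bdd.exists_norm_le
    rw [isBounded_iff_forall_norm_le]
    refine ⟨R + t * ‖x0‖, fun x hx => ?_⟩
    have h1 := hR _ (hadd t h0 x hx x0 hx0.1)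
    have e : x = (x + t • x0) - t • x0 := by abel
    calc ‖x‖ = ‖(x + t • x0) - t • x0‖ := by rw [← e]
      _ ≤ ‖x + t • x0‖ + ‖t • x0‖ := norm_sub_le _ _
      _ ≤ R + t * ‖x0‖ := by
        rw [norm_smul, Real.norm_eq_abs, abs_of_nonneg h0]
        linarith
  -- P_t is good for small t
  choose y hy1 hy2 using hg.irr
  obtain ⟨z, hz⟩ := hg.slater
  have hev : ∀ᶠ t : ℝ in 𝓝 0, (∀ i, ⟪n i, z⟫_ℝ < h i - t * q i) ∧
      ∀ i, ∀ j, j ≠ i → ⟪n j, y i - (t * q i) • n i⟫_ℝ < h j - t * q j := by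
    apply Filter.Eventually.and
    · rw [eventually_all]
      intro i
      have hc : Continuous fun t : ℝ => h i - t * q i := by fun_prop
      have h0 : Tendsto (fun t : ℝ => h i - t * q i) (𝓝 0) (𝓝 (h i)) := by
        have := hc.tendsto 0
        simpa using this
      exact h0.eventually_const_lt (hz i)
    · rw [eventually_all]
      intro i
      rw [eventually_all]
      intro j
      by_cases hj : j = i
      · exact Eventually.of_forall fun _ h' => absurd hj h'
      · have hc : Continuous fun t : ℝ => (h j - t * q j) - ⟪n j, y i - (t * q i) • n i⟫_ℝ := by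
          fun_prop
        have h0 : Tendsto (fun t : ℝ => (h j - t * q j) - ⟪n j, y i - (t * q i) • n i⟫_ℝ) (𝓝 0)
            (𝓝 (h j - ⟪n j, y i⟫_ℝ)) := by
          have := hc.tendsto 0
          simpa using this
        have h1 : 0 < h j - ⟪n j, y i⟫_ℝ := by linarith [hy2 i j hj]
        filter_upwards [h0.eventually_const_lt h1] with t ht _
        linarith
  obtain ⟨ε, hε, hball⟩ := Metric.eventually_nhds_iff.mp hev
  set t : ℝ := min (ε / 2) (1 / 2) with htdef
  have ht0 : 0 < t := lt_min (by linarith) (by norm_num)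
  have ht1 : t < 1 := lt_of_le_of_lt (min_le_right _ _) (by norm_num)
  obtain ⟨hs1, hs2⟩ := hball (y := t) (by
    rw [Real.dist_eq, sub_zero, abs_of_pos ht0]
    exact lt_of_le_of_lt (min_le_left _ _) (by linarith))
  have hgt : Good n (ht t) := by
    refine ⟨hg.unit, fun i => ⟨y i - (t * q i) • n i, ?_, fun j hj => hs2 i j hj⟩, hbt t ht0.le,
      ⟨z, hs1⟩⟩
    rw [inner_sub_right, inner_smul_right, real_inner_self_eq_norm_sq, hg.unit i, hy1 i]
    simp only [hht]
    ring
  -- superadditivity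
  have hsup : ∑ i, MM (Fac n (ht t) i) + ENNReal.ofReal t * ∑ i, MM (Fac n q i)
      ≤ ∑ i, MM (Fac n h i) := by
    rw [Finset.mul_sum, ← Finset.sum_add_distrib]
    apply Finset.sum_le_sum
    intro i _
    obtain ⟨w, hw1, hw2⟩ := hgt.irr i
    apply MM_add (key_compact_fac hgt.bdd i) (key_convex_fac _ _ i)
      ⟨w, fun j => by
        by_cases hj : j = i
        · rw [hj, hw1]
        · exact (hw2 j hj).le, hw1⟩
      (key_compact_fac hQb i) (key_convex_fac _ _ i) (hne i) ht0.le
    intro a ha b hb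
    refine ⟨hadd t ht0.le a ha.1 b hb.1, ?_⟩
    rw [inner_add_right, inner_smul_right, ha.2, hb.2]
    simp only [hht]
    ring
  -- the volume
  have hvol : ENNReal.ofReal ((1 - t) ^ 3) * volume (Poly n h) ≤ volume (Poly n (ht t)) := by
    have hsub : (1 - t) • Poly n h ⊆ Poly n (ht t) := by
      rintro _ ⟨x, hx, rfl⟩ i
      simp only [hht]
      rw [inner_smul_right]
      have h1 := mul_le_mul_of_nonneg_left (hx i) (by linarith : (0 : ℝ) ≤ 1 - t)
      have h2 := mul_le_mul_of_nonneg_left (hq i) ht0.le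
      linarith
    have h1 := measure_mono (μ := volume) hsub
    rw [Measure.addHaar_smul] at h1
    have e : |(1 - t) ^ Module.finrank ℝ (E 3)| = (1 - t) ^ 3 := by
      rw [show Module.finrank ℝ (E 3) = 3 by simp]
      exact abs_of_nonneg (pow_nonneg (by linarith) 3)
    rwa [e] at h1
  -- conclusion
  obtain ⟨hA1, hA0⟩ := hg.sum_eq
  obtain ⟨hT1, hT0⟩ := hgt.sum_eq
  have hVfin : volume (Poly n h) ≠ ∞ := hg.bdd.measure_lt_top.ne
  have hVpos := hg.volume_pos
  have hVtfin : volume (Poly n (ht t)) ≠ ∞ := hgt.bdd.measure_lt_top.ne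
  have hr := hmax (ht t) hgt
  unfold rat at hr
  set A := ∑ i, MM (Fac n h i) with hA
  set T := ∑ i, MM (Fac n (ht t) i) with hT
  set B := ∑ i, MM (Fac n q i) with hB
  have hBfin : B ≠ ∞ := by
    rw [hB]
    exact (ENNReal.sum_lt_top.mpr fun i _ =>
      (MM_ne_top (hQb.subset fun _ hx => hx.1)).lt_top).ne
  -- pass to real numbers
  have hr2 : (volume (Poly n (ht t))).toReal / T.toReal ^ 3
      ≤ (volume (Poly n h)).toReal / A.toReal ^ 3 := by
    have h1 := ENNReal.toReal_mono (ENNReal.div_ne_top hVfin (pow_ne_zero 3 hA0)) hr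
    rwa [ENNReal.toReal_div, ENNReal.toReal_div, ENNReal.toReal_pow, ENNReal.toReal_pow] at h1
  have hvol2 : (1 - t) ^ 3 * (volume (Poly n h)).toReal ≤ (volume (Poly n (ht t))).toReal := by
    have h1 := ENNReal.toReal_mono hVtfin hvol
    rwa [ENNReal.toReal_mul, ENNReal.toReal_ofReal (pow_nonneg (by linarith) 3)] at h1
  have hsup2 : T.toReal + t * B.toReal ≤ A.toReal := by
    have h1 := ENNReal.toReal_mono hA1 hsup
    rwa [ENNReal.toReal_add hT1 (ENNReal.mul_ne_top ENNReal.ofReal_ne_top hBfin),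
      ENNReal.toReal_mul, ENNReal.toReal_ofReal ht0.le] at h1
  have hApos : 0 < A.toReal := ENNReal.toReal_pos hA0 hA1
  have hTpos : 0 < T.toReal := ENNReal.toReal_pos hT0 hT1
  have hVr : 0 < (volume (Poly n h)).toReal := ENNReal.toReal_pos hVpos hVfin
  have h3 : (1 - t) * A.toReal ≤ T.toReal := by
    rw [div_le_div_iff₀ (by positivity) (by positivity)] at hr2
    have h4 : (1 - t) ^ 3 * (volume (Poly n h)).toReal * A.toReal ^ 3
        ≤ (volume (Poly n h)).toReal * T.toReal ^ 3 :=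
      (mul_le_mul_of_nonneg_right hvol2 (by positivity)).trans hr2
    have h5 : ((1 - t) * A.toReal) ^ 3 ≤ T.toReal ^ 3 := by
      have e1 : (1 - t) ^ 3 * (volume (Poly n h)).toReal * A.toReal ^ 3
          = (volume (Poly n h)).toReal * ((1 - t) * A.toReal) ^ 3 := by ring
      rw [e1] at h4
      exact le_of_mul_le_mul_left h4 hVr
    exact le_of_pow_le_pow_left₀ (by norm_num) hTpos.le h5
  have h6 : t * B.toReal ≤ t * A.toReal := by linarith
  have h7 : B.toReal ≤ A.toReal := le_of_mul_le_mul_left h6 ht0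
  exact (ENNReal.toReal_le_toReal hBfin hA1).mp h7

end Melzak
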