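import Pool.Agent.Helper27.Melzak.Width

/-!
Polyhedra in 3-space given by irredundant systems of inequalities; the facet formula.
-/

open MeasureTheory Set Filter Topology
open scoped ENNReal InnerProductSpace

namespace Melzak

variable {ι : Type*}

def Poly (n : ι → E 3) (h : ι → ℝ) : Set (E 3) := {x | ∀ i, ⟪n i, x⟫_ℝ ≤ h i}

def Fac (n : ι → E 3) (h : ι → ℝ) (i : ι) : Set (E 3) := {x | x ∈ Poly n h ∧ ⟪n i, x⟫_ℝ = h i}

/-- An irredundant representation of a bounded polyhedron with interior points. -/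
structure Good (n : ι → E 3) (h : ι → ℝ) : Prop where
  unit : ∀ i, ‖n i‖ = 1
  irr : ∀ i, ∃ y, ⟪n i, y⟫_ℝ = h i ∧ ∀ j, j ≠ i → ⟪n j, y⟫_ℝ < h j
  bdd : Bornology.IsBounded (Poly n h)
  slater : ∃ z, ∀ i, ⟪n i, z⟫_ℝ < h i

lemma isClosed_Poly (n : ι → E 3) (h : ι → ℝ) : IsClosed (Poly n h) := by
  have : Poly n h = ⋂ i, {x | ⟪n i, x⟫_ℝ ≤ h i} := by ext x; simp [Poly]
  rw [this]
  exact isClosed_iInter fun i => isClosed_le (by fun_prop) continuous_const

lemma convex_Poly (n : ι → E 3) (h : ι → ℝ) : Convex ℝ (Poly n h) := by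
  intro x hx y hy a b ha hb hab i
  have h1 := hx i
  have h2 := hy i
  rw [inner_add_right, inner_smul_right, inner_smul_right]
  have : h i = a * h i + b * h i := by rw [← add_mul, hab, one_mul]
  rw [this]
  gcongr

lemma Fac_subset (n : ι → E 3) (h : ι → ℝ) (i : ι) : Fac n h i ⊆ Poly n h := fun _ hx => hx.1

lemma isClosed_Fac (n : ι → E 3) (h : ι → ℝ) (i : ι) : IsClosed (Fac n h i) := by
  have : Fac n h i = Poly n h ∩ {x | ⟪n i, x⟫_ℝ = h i} := rfl
  rw [this]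
  exact (isClosed_Poly n h).inter (isClosed_eq (by fun_prop) continuous_const)

lemma convex_Fac (n : ι → E 3) (h : ι → ℝ) (i : ι) : Convex ℝ (Fac n h i) := by
  intro x hx y hy a b ha hb hab
  refine ⟨convex_Poly n h hx.1 hy.1 ha hb hab, ?_⟩
  rw [inner_add_right, inner_smul_right, inner_smul_right, hx.2, hy.2, ← add_mul, hab, one_mul]

lemma isCompact_Poly {n : ι → E 3} {h : ι → ℝ} (hb : Bornology.IsBounded (Poly n h)) :
    IsCompact (Poly n h) := Metric.isCompact_of_isClosed_isBounded (isClosed_Poly n h) hb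

lemma isCompact_Fac {n : ι → E 3} {h : ι → ℝ} (hb : Bornology.IsBounded (Poly n h)) (i : ι) :
    IsCompact (Fac n h i) :=
  Metric.isCompact_of_isClosed_isBounded (isClosed_Fac n h i) (hb.subset (Fac_subset n h i))

lemma isCompact_Fac_inter {n : ι → E 3} {h : ι → ℝ} (hb : Bornology.IsBounded (Poly n h))
    (i j : ι) : IsCompact (Fac n h i ∩ Fac n h j) :=
  (isCompact_Fac hb i).inter (isCompact_Fac hb j)

lemma Good.nonempty_Fac {n : ι → E 3} {h : ι → ℝ} (hg : Good n h) (i : ι) :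
    (Fac n h i).Nonempty := by
  obtain ⟨y, hy, hy'⟩ := hg.irr i
  refine ⟨y, fun j => ?_, hy⟩
  by_cases hj : j = i
  · rw [hj]; exact hy.le
  · exact (hy' j hj).le

/-- At most two constraints are active at a point, except for rank reasons. -/
lemma Good.no_three {n : ι → E 3} {h : ι → ℝ} (hg : Good n h) {i j k : ι} (hij : i ≠ j)
    (hik : i ≠ k) (hjk : j ≠ k) {b : E 3} (hi : ⟪n i, b⟫_ℝ = h i)
    (hj : ⟪n j, b⟫_ℝ = h j) (hk : ⟪n k, b⟫_ℝ = h k) {d : E 3} (hdi : ⟪n i, d⟫_ℝ = 0)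
    (hdj : ⟪n j, d⟫_ℝ = 0) (hdk : ⟪n k, d⟫_ℝ = 0) : d = 0 := by
  by_contra hd
  have hdep : ¬ LinearIndependent ℝ ![n i, n j, n k] := by
    intro hli
    have htop := hli.span_eq_top_of_card_eq_finrank (by simp)
    have hmem : d ∈ Submodule.span ℝ (Set.range ![n i, n j, n k]) := by rw [htop]; trivial
    rw [Submodule.mem_span_range_iff_exists_fun] at hmem
    obtain ⟨c, hc⟩ := hmem
    have h0 : ⟪∑ i_1, c i_1 • ![n i, n j, n k] i_1, d⟫_ℝ = 0 := by
      rw [Fin.sum_univ_three]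
      simp only [Matrix.cons_val_zero, Matrix.cons_val_one, Matrix.cons_val]
      rw [inner_add_left, inner_add_left, inner_smul_left, inner_smul_left, inner_smul_left]
      rw [hdi, hdj, hdk]
      simp
    rw [hc] at h0
    exact hd (inner_self_eq_zero.1 h0)
  rw [Fintype.not_linearIndependent_iff] at hdep
  obtain ⟨g, hg0, l, hl⟩ := hdep
  rw [Fin.sum_univ_three] at hg0
  simp only [Matrix.cons_val_zero, Matrix.cons_val_one, Matrix.cons_val] at hg0
  have key : ∀ w : E 3, g 0 * ⟪n i, w⟫_ℝ + g 1 * ⟪n j, w⟫_ℝ + g 2 * ⟪n k, w⟫_ℝ = 0 := by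
    intro w
    have := congrArg (fun z => ⟪z, w⟫_ℝ) hg0
    simpa [inner_add_left, inner_smul_left] using this
  obtain ⟨yi, hyi, hyi'⟩ := hg.irr i
  obtain ⟨yj, hyj, hyj'⟩ := hg.irr j
  obtain ⟨yk, hyk, hyk'⟩ := hg.irr k
  have ei := key (yi - b)
  have ej := key (yj - b)
  have ek := key (yk - b)
  simp only [inner_sub_right, hi, hj, hk, hyi, hyj, hyk, sub_self, mul_zero, zero_add,
    add_zero] at ei ej ek
  have a1 := hyi' j hij.symm
  have a2 := hyi' k hik.symm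
  have a3 := hyj' i hij
  have a4 := hyj' k hjk.symm
  have a5 := hyk' i hik
  have a6 := hyk' j hjk
  have A1 : ⟪n j, yi⟫_ℝ - h j < 0 := by linarith
  have A2 : ⟪n k, yi⟫_ℝ - h k < 0 := by linarith
  have A3 : ⟪n i, yj⟫_ℝ - h i < 0 := by linarith
  have A4 : ⟪n k, yj⟫_ℝ - h k < 0 := by linarith
  have A5 : ⟪n i, yk⟫_ℝ - h i < 0 := by linarith
  have A6 : ⟪n j, yk⟫_ℝ - h j < 0 := by linarith
  rcases lt_trichotomy (g 0) 0 with h0 | h0 | h0
  · have b2 : 0 < g 2 := by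
      by_contra hc
      push Not at hc
      nlinarith [mul_pos_of_neg_of_neg h0 A3, mul_nonneg_of_nonpos_of_nonpos hc A4.le]
    have b1 : 0 < g 1 := by
      by_contra hc
      push Not at hc
      nlinarith [mul_pos_of_neg_of_neg h0 A5, mul_nonneg_of_nonpos_of_nonpos hc A6.le]
    nlinarith [mul_neg_of_pos_of_neg b1 A1, mul_neg_of_pos_of_neg b2 A2]
  · rw [h0, zero_mul, zero_add] at ej ek
    have b2 : g 2 = 0 := by
      rcases mul_eq_zero.1 ej with hh | hh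
      · exact hh
      · exact absurd hh A4.ne
    have b1 : g 1 = 0 := by
      rcases mul_eq_zero.1 ek with hh | hh
      · exact hh
      · exact absurd hh A6.ne
    fin_cases l
    · exact hl h0
    · exact hl b1
    · exact hl b2
  · have b2 : g 2 < 0 := by
      by_contra hc
      push Not at hc
      nlinarith [mul_neg_of_pos_of_neg h0 A3, mul_nonpos_of_nonneg_of_nonpos hc A4.le]
    have b1 : g 1 < 0 := by
      by_contra hc
      push Not at hc
      nlinarith [mul_neg_of_pos_of_neg h0 A5, mul_nonpos_of_nonneg_of_nonpos hc A6.le]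
    nlinarith [mul_pos_of_neg_of_neg b1 A1, mul_pos_of_neg_of_neg b2 A2]

/-- Points at which three constraints are active. -/
def Tri (n : ι → E 3) (h : ι → ℝ) : Set (E 3) :=
  {b | ∃ i j k, i ≠ j ∧ i ≠ k ∧ j ≠ k ∧ ⟪n i, b⟫_ℝ = h i ∧ ⟪n j, b⟫_ℝ = h j ∧ ⟪n k, b⟫_ℝ = h k}

lemma Good.finite_Tri [Finite ι] {n : ι → E 3} {h : ι → ℝ} (hg : Good n h) :
    (Tri n h).Finite := by
  have : Tri n h ⊆ ⋃ p : ι × ι × ι, {b | p.1 ≠ p.2.1 ∧ p.1 ≠ p.2.2 ∧ p.2.1 ≠ p.2.2 ∧
      ⟪n p.1, b⟫_ℝ = h p.1 ∧ ⟪n p.2.1, b⟫_ℝ = h p.2.1 ∧ ⟪n p.2.2, b⟫_ℝ = h p.2.2} := by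
    rintro b ⟨i, j, k, h1⟩
    exact mem_iUnion.2 ⟨(i, j, k), h1⟩
  refine Set.Finite.subset (Set.finite_iUnion fun p => ?_) this
  apply Set.Subsingleton.finite
  rintro b ⟨h1, h2, h3, h4, h5, h6⟩ b' ⟨_, _, _, h4', h5', h6'⟩
  have := hg.no_three h1 h2 h3 h4 h5 h6 (d := b - b') (by rw [inner_sub_right, h4, h4', sub_self])
    (by rw [inner_sub_right, h5, h5', sub_self]) (by rw [inner_sub_right, h6, h6', sub_self])
  exact sub_eq_zero.1 this

/-- A ray starting in a bounded polyhedron leaves it through a constraint. -/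
lemma exists_exit [Finite ι] {n : ι → E 3} {h : ι → ℝ} (hb : Bornology.IsBounded (Poly n h))
    {y w : E 3} (hy : y ∈ Poly n h) (hw : w ≠ 0) :
    ∃ j, ∃ τ : ℝ, 0 ≤ τ ∧ 0 < ⟪n j, w⟫_ℝ ∧ y + τ • w ∈ Poly n h ∧ ⟪n j, y + τ • w⟫_ℝ = h j := by
  classical
  have := Fintype.ofFinite ι
  have hne : (Finset.univ.filter fun j => 0 < ⟪n j, w⟫_ℝ).Nonempty := by
    by_contra hc
    rw [Finset.not_nonempty_iff_eq_empty, Finset.filter_eq_empty_iff] at hc
    obtain ⟨R, hR⟩ := hb.exists_norm_le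
    have hmem : ∀ τ : ℝ, 0 ≤ τ → y + τ • w ∈ Poly n h := by
      intro τ hτ j
      have h1 := hc (Finset.mem_univ j)
      push Not at h1
      rw [inner_add_right, inner_smul_right]
      nlinarith [hy j]
    have hwn : 0 < ‖w‖ := norm_pos_iff.2 hw
    have h2 := hR _ (hmem ((R + ‖y‖ + 1) / ‖w‖) (by
      have : 0 ≤ R := (norm_nonneg _).trans (hR y hy)
      positivity))
    have h3 : ‖((R + ‖y‖ + 1) / ‖w‖) • w‖ ≤ ‖y + ((R + ‖y‖ + 1) / ‖w‖) • w‖ + ‖y‖ := by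
      have := norm_sub_le (y + ((R + ‖y‖ + 1) / ‖w‖) • w) y
      simpa using this
    have h4 : ‖((R + ‖y‖ + 1) / ‖w‖) • w‖ = R + ‖y‖ + 1 := by
      have : 0 ≤ R := (norm_nonneg _).trans (hR y hy)
      rw [norm_smul, Real.norm_of_nonneg (by positivity), div_mul_cancel₀ _ hwn.ne']
    linarith
  obtain ⟨j, hj, hmin⟩ := Finset.exists_min_image _
    (fun j => (h j - ⟪n j, y⟫_ℝ) / ⟪n j, w⟫_ℝ) hne
  rw [Finset.mem_filter] at hj
  have hj2 := hj.2
  have hτ0 : 0 ≤ (h j - ⟪n j, y⟫_ℝ) / ⟪n j, w⟫_ℝ := by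
    have := hy j
    exact div_nonneg (by linarith) hj2.le
  refine ⟨j, (h j - ⟪n j, y⟫_ℝ) / ⟪n j, w⟫_ℝ, hτ0, hj2, ?_, ?_⟩
  · intro l
    rw [inner_add_right, inner_smul_right]
    by_cases hl : 0 < ⟪n l, w⟫_ℝ
    · have := hmin l (Finset.mem_filter.2 ⟨Finset.mem_univ _, hl⟩)
      rw [le_div_iff₀ hl] at this
      linarith
    · push Not at hl
      nlinarith [hy l]
  · rw [inner_add_right, inner_smul_right, div_mul_cancel₀ _ hj2.ne']
    ring

/-- Two vectors have a common orthogonal direction; it is unique when they are independent. -/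
lemma exists_dir (p u : E 3) : ∃ v : E 3, v ≠ 0 ∧ ⟪p, v⟫_ℝ = 0 ∧ ⟪u, v⟫_ℝ = 0 ∧
    ((∃ z, ⟪p, z⟫_ℝ = 0 ∧ ⟪u, z⟫_ℝ ≠ 0) → p ≠ 0 →
      ∀ x : E 3, ⟪p, x⟫_ℝ = 0 → ⟪u, x⟫_ℝ = 0 → ∃ t : ℝ, x = t • v) := by
  set W : Submodule ℝ (E 3) := Submodule.span ℝ {p, u} with hW
  have hfin : Module.finrank ℝ W + Module.finrank ℝ Wᗮ = 3 := by
    rw [Submodule.finrank_add_finrank_orthogonal]; simp
  have hle : Module.finrank ℝ W ≤ 2 := by
    have := finrank_span_le_card (R := ℝ) ({p, u} : Set (E 3))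
    refine this.trans ?_
    rw [Set.toFinset_insert, Set.toFinset_singleton]
    exact Finset.card_le_two
  have hpos : 0 < Module.finrank ℝ Wᗮ := by omega
  have hbot : Wᗮ ≠ ⊥ := by
    intro hh
    rw [hh] at hpos
    simp at hpos
  obtain ⟨v, hv, hv0⟩ := Submodule.exists_mem_ne_zero_of_ne_bot hbot
  have hvp : ⟪p, v⟫_ℝ = 0 := (Submodule.mem_orthogonal W v).1 hv p
    (Submodule.subset_span (by simp))
  have hvu : ⟪u, v⟫_ℝ = 0 := (Submodule.mem_orthogonal W v).1 hv u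
    (Submodule.subset_span (by simp))
  refine ⟨v, hv0, hvp, hvu, ?_⟩
  rintro ⟨z, hz1, hz2⟩ hp x hx1 hx2
  have h2 : Module.finrank ℝ W = 2 := by
    have hli : LinearIndependent ℝ ![p, u] := by
      rw [LinearIndependent.pair_iff]
      intro s t hst
      have e1 := congrArg (fun q => ⟪q, z⟫_ℝ) hst
      simp only [inner_add_left, inner_smul_left, hz1, inner_zero_left] at e1
      simp only [RCLike.conj_to_real, mul_zero, zero_add, mul_eq_zero] at e1
      have ht : t = 0 := by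
        rcases e1 with e1 | e1
        · exact e1
        · exact absurd e1 hz2
      rw [ht, zero_smul, add_zero] at hst
      rcases smul_eq_zero.1 hst with h | h
      · exact ⟨h, ht⟩
      · exact absurd h hp
    have := finrank_span_eq_card hli
    have hr : Set.range ![p, u] = {p, u} := by
      simp [Matrix.range_cons, Set.pair_comm]
    rw [hr] at this
    rw [hW, this]
    simp
  have h1 : Module.finrank ℝ Wᗮ = 1 := by omega
  have hx : x ∈ Wᗮ := by
    rw [Submodule.mem_orthogonal]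
    intro q hq
    rw [hW, Submodule.mem_span_pair] at hq
    obtain ⟨a, b, rfl⟩ := hq
    rw [inner_add_left, inner_smul_left, inner_smul_left, hx1, hx2]
    simp
  have := (finrank_eq_one_iff_of_nonzero' (⟨v, hv⟩ : Wᗮ) (by
    intro hh
    exact hv0 (congrArg Subtype.val hh))).1 h1 ⟨x, hx⟩
  obtain ⟨c, hc⟩ := this
  exact ⟨c, (congrArg Subtype.val hc).symm⟩

/-- The strict point of a facet at an interior level. -/
lemma Good.exists_strict_level {n : ι → E 3} {h : ι → ℝ} (hg : Good n h) (u : E 3) (i : ι) {s : ℝ}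
    (hs : s ∈ interior ((fun x : E 3 => ⟪x, u⟫_ℝ) '' Fac n h i)) :
    ∃ y, ⟪n i, y⟫_ℝ = h i ∧ (∀ j, j ≠ i → ⟪n j, y⟫_ℝ < h j) ∧ ⟪y, u⟫_ℝ = s := by
  obtain ⟨y, hy, hy'⟩ := hg.irr i
  obtain ⟨a, b, hab, himg⟩ := image_eq_Icc (isCompact_Fac hg.bdd i) (convex_Fac n h i)
    (hg.nonempty_Fac i) u
  rw [himg, interior_Icc] at hs
  have key : ∀ z ∈ Fac n h i, ∀ θ : ℝ, 0 ≤ θ → θ < 1 → ⟪y, u⟫_ℝ + θ * (⟪z, u⟫_ℝ - ⟪y, u⟫_ℝ) = s →
      ∃ y, ⟪n i, y⟫_ℝ = h i ∧ (∀ j, j ≠ i → ⟪n j, y⟫_ℝ < h j) ∧ ⟪y, u⟫_ℝ = s := by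
    intro z hz θ h0 h1 h2
    refine ⟨y + θ • (z - y), ?_, ?_, ?_⟩
    · rw [inner_add_right, inner_smul_right, inner_sub_right, hz.2, hy]; ring
    · intro j hj
      rw [inner_add_right, inner_smul_right, inner_sub_right]
      have e1 := hy' j hj
      have e2 := hz.1 j
      nlinarith
    · rw [inner_add_left, inner_smul_left, inner_sub_left]
      simpa using h2
  obtain ⟨za, hza, hza'⟩ : a ∈ (fun x : E 3 => ⟪x, u⟫_ℝ) '' Fac n h i := by
    rw [himg]; exact ⟨le_rfl, hab⟩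
  obtain ⟨zb, hzb, hzb'⟩ : b ∈ (fun x : E 3 => ⟪x, u⟫_ℝ) '' Fac n h i := by
    rw [himg]; exact ⟨hab, le_rfl⟩
  simp only at hza' hzb'
  rcases le_or_gt ⟪y, u⟫_ℝ s with hc | hc
  · have hpos : 0 < b - ⟪y, u⟫_ℝ := by linarith [hs.2]
    refine key zb hzb ((s - ⟪y, u⟫_ℝ) / (b - ⟪y, u⟫_ℝ)) (div_nonneg (by linarith) hpos.le)
      ((div_lt_one hpos).2 (by linarith [hs.2])) ?_
    rw [hzb', div_mul_cancel₀ _ hpos.ne']
    ring
  · have hpos : 0 < ⟪y, u⟫_ℝ - a := by linarith [hs.1]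
    refine key za hza ((⟪y, u⟫_ℝ - s) / (⟪y, u⟫_ℝ - a)) (div_nonneg (by linarith) hpos.le)
      ((div_lt_one hpos).2 (by linarith [hs.1])) ?_
    rw [hza']
    have : (⟪y, u⟫_ℝ - s) / (⟪y, u⟫_ℝ - a) * (a - ⟪y, u⟫_ℝ) = -(⟪y, u⟫_ℝ - s) := by
      field_simp
      ring
    rw [this]
    ring

/-- At a generic level exactly two other facets meet the slice of a given facet. -/
lemma Good.pair_level [Finite ι] {n : ι → E 3} {h : ι → ℝ} (hg : Good n h) (u : E 3) (i : ι)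
    {s : ℝ} (hs : s ∈ interior ((fun x : E 3 => ⟪x, u⟫_ℝ) '' Fac n h i))
    (hT : ∀ b ∈ Tri n h, ⟪b, u⟫_ℝ ≠ s) :
    ∃ j₁ j₂, j₁ ≠ i ∧ j₂ ≠ i ∧ j₁ ≠ j₂ ∧ ∀ j, j ≠ i →
      (s ∈ (fun x : E 3 => ⟪x, u⟫_ℝ) '' (Fac n h i ∩ Fac n h j) ↔ j = j₁ ∨ j = j₂) := by
  obtain ⟨y, hy, hy', hys⟩ := hg.exists_strict_level u i hs
  have hyP : y ∈ Poly n h := by
    intro j
    by_cases hj : j = i
    · rw [hj]; exact hy.le
    · exact (hy' j hj).le
  -- independence
  have hz : ∃ z, ⟪n i, z⟫_ℝ = 0 ∧ ⟪u, z⟫_ℝ ≠ 0 := by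
    obtain ⟨a, b, hab, himg⟩ := image_eq_Icc (isCompact_Fac hg.bdd i) (convex_Fac n h i)
      (hg.nonempty_Fac i) u
    rw [himg, interior_Icc] at hs
    obtain ⟨za, hza, hza'⟩ : a ∈ (fun x : E 3 => ⟪x, u⟫_ℝ) '' Fac n h i := by
      rw [himg]; exact ⟨le_rfl, hab⟩
    refine ⟨y - za, ?_, ?_⟩
    · rw [inner_sub_right, hy, hza.2, sub_self]
    · rw [real_inner_comm, inner_sub_left, hys]
      simp only at hza'
      rw [hza']
      have := hs.1
      intro hh
      linarith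
  have hni : n i ≠ 0 := by
    intro hh
    have := hg.unit i
    rw [hh, norm_zero] at this
    exact zero_ne_one this
  obtain ⟨v, hv0, hv1, hv2, hv3⟩ := exists_dir (n i) u
  have hline := hv3 hz hni
  obtain ⟨j₁, τ₁, ht₁, hp₁, hm₁, ha₁⟩ := exists_exit hg.bdd hyP hv0
  obtain ⟨j₂, τ₂, ht₂, hp₂, hm₂, ha₂⟩ := exists_exit hg.bdd hyP (neg_ne_zero.2 hv0)
  have hj₁ : j₁ ≠ i := by
    rintro rfl
    rw [hv1] at hp₁
    exact lt_irrefl _ hp₁
  have hj₂ : j₂ ≠ i := by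
    rintro rfl
    rw [inner_neg_right, hv1, neg_zero] at hp₂
    exact lt_irrefl _ hp₂
  have hp₂' : ⟪n j₂, v⟫_ℝ < 0 := by
    rw [inner_neg_right] at hp₂
    linarith
  have hlev : ∀ t : ℝ, ⟪y + t • v, u⟫_ℝ = s := by
    intro t
    rw [inner_add_left, inner_smul_left, real_inner_comm, real_inner_comm] at *
    rw [real_inner_comm u v, hv2, hys]
    simp
  have hact : ∀ t : ℝ, ⟪n i, y + t • v⟫_ℝ = h i := by
    intro t
    rw [inner_add_right, inner_smul_right, hv1, hy, mul_zero, add_zero]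
  have hx₂ : y + τ₂ • (-v) = y + (-τ₂) • v := by rw [smul_neg, neg_smul]
  rw [hx₂] at hm₂ ha₂
  refine ⟨j₁, j₂, hj₁, hj₂, ?_, ?_⟩
  · rintro rfl
    linarith
  intro j hj
  constructor
  · rintro ⟨x, ⟨hx1, hx2⟩, hx3⟩
    simp only at hx3
    obtain ⟨t, ht⟩ := hline (x - y) (by rw [inner_sub_right, hx1.2, hy, sub_self])
      (by rw [real_inner_comm, inner_sub_left, hx3, hys, sub_self])
    have hxt : x = y + t • v := by rw [← ht]; abel
    have hjx := hx2.2
    have hjy := hy' j hj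
    rw [hxt, inner_add_right, inner_smul_right] at hjx
    have htv : 0 < t * ⟪n j, v⟫_ℝ := by linarith
    rcases lt_trichotomy t 0 with h0 | h0 | h0
    · right
      have hjv : ⟪n j, v⟫_ℝ < 0 := by
        by_contra hc
        push Not at hc
        nlinarith
      have e1 : t = -τ₂ := by
        have f1 := hm₂ j
        have f2 := hx1.1 j₂
        rw [inner_add_right, inner_smul_right] at f1 ha₂
        rw [hxt, inner_add_right, inner_smul_right] at f2
        apply le_antisymm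
        · by_contra hc
          push Not at hc
          nlinarith
        · by_contra hc
          push Not at hc
          nlinarith
      by_contra hne
      refine hT x ⟨i, j, j₂, hj.symm, hj₂.symm, hne, hx1.2, hx2.2, ?_⟩ hx3
      rw [hxt, e1]
      exact ha₂
    · rw [h0, zero_mul] at htv
      exact absurd htv (lt_irrefl _)
    · left
      have hjv : 0 < ⟪n j, v⟫_ℝ := by
        by_contra hc
        push Not at hc
        nlinarith
      have e1 : t = τ₁ := by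
        have f1 := hm₁ j
        have f2 := hx1.1 j₁
        rw [inner_add_right, inner_smul_right] at f1 ha₁
        rw [hxt, inner_add_right, inner_smul_right] at f2
        apply le_antisymm
        · by_contra hc
          push Not at hc
          nlinarith
        · by_contra hc
          push Not at hc
          nlinarith
      by_contra hne
      refine hT x ⟨i, j, j₁, hj.symm, hj₁.symm, hne, hx1.2, hx2.2, ?_⟩ hx3
      rw [hxt, e1]
      exact ha₁
  · rintro (rfl | rfl)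
    · exact ⟨y + τ₁ • v, ⟨⟨hm₁, hact _⟩, ⟨hm₁, ha₁⟩⟩, hlev _⟩
    · exact ⟨y + (-τ₂) • v, ⟨⟨hm₂, hact _⟩, ⟨hm₂, ha₂⟩⟩, hlev _⟩

/-- Generic levels. -/
lemma Good.ae_level [Finite ι] {n : ι → E 3} {h : ι → ℝ} (hg : Good n h) (u : E 3) :
    ∀ᵐ s : ℝ, (∀ b ∈ Tri n h, ⟪b, u⟫_ℝ ≠ s) ∧ ∀ i, s ∈ (fun x : E 3 => ⟪x, u⟫_ℝ) '' Fac n h i →
      s ∈ interior ((fun x : E 3 => ⟪x, u⟫_ℝ) '' Fac n h i) := by
  have h1 : ∀ᵐ s : ℝ, ∀ b ∈ Tri n h, ⟪b, u⟫_ℝ ≠ s := by
    have hfin : ((fun x : E 3 => ⟪x, u⟫_ℝ) '' Tri n h).Finite := hg.finite_Tri.image _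
    have := hfin.measure_zero (volume : Measure ℝ)
    filter_upwards [compl_mem_ae_iff.2 this] with s hs b hb hbs
    exact hs ⟨b, hb, hbs⟩
  have h2 : ∀ i, ∀ᵐ s : ℝ, s ∈ (fun x : E 3 => ⟪x, u⟫_ℝ) '' Fac n h i →
      s ∈ interior ((fun x : E 3 => ⟪x, u⟫_ℝ) '' Fac n h i) := by
    intro i
    obtain ⟨a, b, hab, himg⟩ := image_eq_Icc (isCompact_Fac hg.bdd i) (convex_Fac n h i)
      (hg.nonempty_Fac i) u
    rw [himg, interior_Icc]
    have hfin : ({a, b} : Set ℝ).Finite := by simp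
    filter_upwards [compl_mem_ae_iff.2 (hfin.measure_zero (volume : Measure ℝ))] with s hs hs'
    simp only [mem_compl_iff, mem_insert_iff, mem_singleton_iff, not_or] at hs
    exact ⟨lt_of_le_of_ne hs'.1 (Ne.symm hs.1), lt_of_le_of_ne hs'.2 hs.2⟩
  have h2' := ae_all_iff.2 h2
  filter_upwards [h1, h2'] with s a b
  exact ⟨a, b⟩

lemma continuous_inner_left (u : E 3) : Continuous (fun x : E 3 => ⟪x, u⟫_ℝ) := by fun_prop

lemma measurableSet_image_of_isCompact {C : Set (E 3)} (hC : IsCompact C) (u : E 3) :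
    MeasurableSet ((fun x : E 3 => ⟪x, u⟫_ℝ) '' C) :=
  (hC.image (continuous_inner_left u)).measurableSet

/-- The facet formula. -/
lemma Good.facet_formula [Fintype ι] [DecidableEq ι] {n : ι → E 3} {h : ι → ℝ} (hg : Good n h)
    (u : E 3) (i : ι) :
    ∑ j ∈ Finset.univ.erase i, wid u (Fac n h i ∩ Fac n h j) = 2 * wid u (Fac n h i) := by
  have hm : ∀ j, MeasurableSet ((fun x : E 3 => ⟪x, u⟫_ℝ) '' (Fac n h i ∩ Fac n h j)) :=
    fun j => measurableSet_image_of_isCompact (isCompact_Fac_inter hg.bdd i j) u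
  have hm' : MeasurableSet ((fun x : E 3 => ⟪x, u⟫_ℝ) '' Fac n h i) :=
    measurableSet_image_of_isCompact (isCompact_Fac hg.bdd i) u
  have e1 : ∀ j, wid u (Fac n h i ∩ Fac n h j) =
      ∫⁻ s, ((fun x : E 3 => ⟪x, u⟫_ℝ) '' (Fac n h i ∩ Fac n h j)).indicator 1 s := fun j =>
    (lintegral_indicator_one (hm j)).symm
  have e2 : wid u (Fac n h i) =
      ∫⁻ s, ((fun x : E 3 => ⟪x, u⟫_ℝ) '' (Fac n h i)).indicator 1 s :=
    (lintegral_indicator_one hm').symm
  simp only [e1]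
  rw [e2, ← lintegral_finsetSum _ (fun j _ => measurable_one.indicator (hm j)),
    ← lintegral_const_mul _ (measurable_one.indicator hm')]
  refine lintegral_congr_ae ?_
  filter_upwards [hg.ae_level u] with s hs
  by_cases hsi : s ∈ (fun x : E 3 => ⟪x, u⟫_ℝ) '' Fac n h i
  · rw [indicator_of_mem hsi]
    obtain ⟨j₁, j₂, h1, h2, h12, hj⟩ := hg.pair_level u i (hs.2 i hsi) hs.1
    have : ∀ j ∈ Finset.univ.erase i, ((fun x : E 3 => ⟪x, u⟫_ℝ) ''
        (Fac n h i ∩ Fac n h j)).indicator (1 : ℝ → ℝ≥0∞) s =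
        if j ∈ ({j₁, j₂} : Finset ι) then 1 else 0 := by
      intro j hji
      have hji' : j ≠ i := Finset.ne_of_mem_erase hji
      by_cases hh : j ∈ ({j₁, j₂} : Finset ι)
      · rw [if_pos hh, indicator_of_mem]
        · rfl
        · rw [hj j hji']
          simpa using hh
      · rw [if_neg hh, indicator_of_notMem]
        rw [hj j hji']
        simpa using hh
    rw [Finset.sum_congr rfl this, ← Finset.sum_filter]
    have hfil : (Finset.univ.erase i).filter (fun j => j ∈ ({j₁, j₂} : Finset ι)) = {j₁, j₂} := by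
      ext j
      simp only [Finset.mem_filter, Finset.mem_erase, Finset.mem_univ, and_true,
        Finset.mem_insert, Finset.mem_singleton]
      constructor
      · exact fun hh => hh.2
      · rintro (rfl | rfl)
        · exact ⟨h1, Or.inl rfl⟩
        · exact ⟨h2, Or.inr rfl⟩
    rw [hfil, Finset.sum_pair h12]
    simp only [Pi.one_apply, mul_one]
    norm_num
  · rw [indicator_of_notMem hsi, mul_zero]
    refine Finset.sum_eq_zero fun j _ => indicator_of_notMem ?_ _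
    rintro ⟨x, hx, hxs⟩
    exact hsi ⟨x, hx.1, hxs⟩

/-- Almost every slice of the polytope meets at least three facets. -/
lemma Good.three_le [Fintype ι] {n : ι → E 3} {h : ι → ℝ} (hg : Good n h) (u : E 3) :
    3 * wid u (Poly n h) ≤ ∑ i, wid u (Fac n h i) := by
  classical
  have hm : ∀ j, MeasurableSet ((fun x : E 3 => ⟪x, u⟫_ℝ) '' (Fac n h j)) :=
    fun j => measurableSet_image_of_isCompact (isCompact_Fac hg.bdd j) u
  have hm' : MeasurableSet ((fun x : E 3 => ⟪x, u⟫_ℝ) '' Poly n h) :=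
    measurableSet_image_of_isCompact (isCompact_Poly hg.bdd) u
  have e1 : ∀ j, wid u (Fac n h j) =
      ∫⁻ s, ((fun x : E 3 => ⟪x, u⟫_ℝ) '' (Fac n h j)).indicator 1 s := fun j =>
    (lintegral_indicator_one (hm j)).symm
  have e2 : wid u (Poly n h) =
      ∫⁻ s, ((fun x : E 3 => ⟪x, u⟫_ℝ) '' (Poly n h)).indicator 1 s :=
    (lintegral_indicator_one hm').symm
  simp only [e1]
  rw [e2, ← lintegral_finsetSum _ (fun j _ => measurable_one.indicator (hm j)),
    ← lintegral_const_mul _ (measurable_one.indicator hm')]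
  refine lintegral_mono_ae ?_
  filter_upwards [hg.ae_level u] with s hs
  by_cases hsP : s ∈ (fun x : E 3 => ⟪x, u⟫_ℝ) '' Poly n h
  · rw [indicator_of_mem hsP]
    obtain ⟨x, hx, hxs⟩ := hsP
    simp only at hxs
    obtain ⟨v, hv0, hv1, -, -⟩ := exists_dir u u
    obtain ⟨i, τ, -, -, hm₁, ha₁⟩ := exists_exit hg.bdd hx hv0
    have hsi : s ∈ (fun x : E 3 => ⟪x, u⟫_ℝ) '' Fac n h i := by
      refine ⟨x + τ • v, ⟨hm₁, ha₁⟩, ?_⟩
      simp only
      rw [inner_add_left, inner_smul_left, real_inner_comm u v, hv1, hxs]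
      simp
    obtain ⟨j₁, j₂, h1, h2, h12, hj⟩ := hg.pair_level u i (hs.2 i hsi) hs.1
    have hs1 : s ∈ (fun x : E 3 => ⟪x, u⟫_ℝ) '' Fac n h j₁ := by
      obtain ⟨z, hz, hz'⟩ := (hj j₁ h1).2 (Or.inl rfl)
      exact ⟨z, hz.2, hz'⟩
    have hs2 : s ∈ (fun x : E 3 => ⟪x, u⟫_ℝ) '' Fac n h j₂ := by
      obtain ⟨z, hz, hz'⟩ := (hj j₂ h2).2 (Or.inr rfl)
      exact ⟨z, hz.2, hz'⟩
    calc 3 * (1 : ℝ → ℝ≥0∞) s = ∑ j ∈ ({i, j₁, j₂} : Finset ι),
          ((fun x : E 3 => ⟪x, u⟫_ℝ) '' (Fac n h j)).indicator (1 : ℝ → ℝ≥0∞) s := by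
          rw [Finset.sum_insert (by simp [h1.symm, h2.symm]), Finset.sum_pair h12,
            indicator_of_mem hsi, indicator_of_mem hs1, indicator_of_mem hs2]
          simp only [Pi.one_apply, mul_one]
          norm_num
      _ ≤ ∑ j, ((fun x : E 3 => ⟪x, u⟫_ℝ) '' (Fac n h j)).indicator (1 : ℝ → ℝ≥0∞) s :=
          Finset.sum_le_sum_of_subset (Finset.subset_univ _)
  · rw [indicator_of_notMem hsP, mul_zero]
    exact bot_le

end Melzak
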