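import Pool.Agent.Helper27.Melzak.Key

/-!
Behaviour of the ratio under dilations and translations.
-/

open MeasureTheory Set Filter Topology
open scoped ENNReal InnerProductSpace Pointwise

namespace Melzak

variable {ι : Type*}

lemma Poly_smul (n : ι → E 3) (h : ι → ℝ) {t : ℝ} (ht : 0 < t) :
    Poly n (fun i => t * h i) = (fun x => t • x) '' Poly n h := by
  ext x
  constructor
  · intro hx
    refine ⟨t⁻¹ • x, fun i => ?_, ?_⟩
    · rw [inner_smul_right]
      have := hx i
      calc t⁻¹ * ⟪n i, x⟫_ℝ ≤ t⁻¹ * (t * h i) := by gcongr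
        _ = h i := by rw [← mul_assoc, inv_mul_cancel₀ ht.ne', one_mul]
    · simp only
      rw [smul_smul, mul_inv_cancel₀ ht.ne', one_smul]
  · rintro ⟨y, hy, rfl⟩ i
    simp only
    rw [inner_smul_right]
    have := hy i
    gcongr

lemma Fac_smul (n : ι → E 3) (h : ι → ℝ) {t : ℝ} (ht : 0 < t) (i : ι) :
    Fac n (fun i => t * h i) i = (fun x => t • x) '' Fac n h i := by
  ext x
  constructor
  · rintro ⟨hx, hx2⟩
    rw [Poly_smul n h ht] at hx
    obtain ⟨y, hy, rfl⟩ := hx
    refine ⟨y, ⟨hy, ?_⟩, rfl⟩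
    simp only at hx2
    rw [inner_smul_right] at hx2
    exact mul_left_cancel₀ ht.ne' hx2
  · rintro ⟨y, hy, rfl⟩
    refine ⟨?_, ?_⟩
    · rw [Poly_smul n h ht]
      exact ⟨y, hy.1, rfl⟩
    · simp only
      rw [inner_smul_right, hy.2]

lemma Poly_translate (n : ι → E 3) (h : ι → ℝ) (x : E 3) :
    Poly n (fun i => h i + ⟪n i, x⟫_ℝ) = (fun y => x + y) '' Poly n h := by
  ext z
  constructor
  · intro hz
    refine ⟨z - x, fun i => ?_, by simp⟩
    have := hz i
    rw [inner_sub_right]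
    linarith
  · rintro ⟨y, hy, rfl⟩ i
    simp only
    rw [inner_add_right]
    linarith [hy i]

lemma Fac_translate (n : ι → E 3) (h : ι → ℝ) (x : E 3) (i : ι) :
    Fac n (fun i => h i + ⟪n i, x⟫_ℝ) i = (fun y => x + y) '' Fac n h i := by
  ext z
  constructor
  · rintro ⟨hz, hz2⟩
    rw [Poly_translate n h x] at hz
    obtain ⟨y, hy, rfl⟩ := hz
    refine ⟨y, ⟨hy, ?_⟩, rfl⟩
    simp only at hz2
    rw [inner_add_right] at hz2
    linarith
  · rintro ⟨y, hy, rfl⟩
    refine ⟨?_, ?_⟩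
    · rw [Poly_translate n h x]
      exact ⟨y, hy.1, rfl⟩
    · simp only
      rw [inner_add_right, hy.2]
      ring

lemma Good.smul {n : ι → E 3} {h : ι → ℝ} (hg : Good n h) {t : ℝ} (ht : 0 < t) :
    Good n (fun i => t * h i) := by
  refine ⟨hg.unit, fun i => ?_, ?_, ?_⟩
  · obtain ⟨y, hy, hy'⟩ := hg.irr i
    refine ⟨t • y, by rw [inner_smul_right, hy], fun j hj => ?_⟩
    rw [inner_smul_right]
    have := hy' j hj
    gcongr
  · rw [Poly_smul n h ht]
    obtain ⟨R, hR⟩ := hg.bdd.exists_norm_le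
    rw [isBounded_iff_forall_norm_le]
    refine ⟨t * R, ?_⟩
    rintro _ ⟨x, hx, rfl⟩
    simp only
    rw [norm_smul, Real.norm_of_nonneg ht.le]
    gcongr
    exact hR x hx
  · obtain ⟨z, hz⟩ := hg.slater
    refine ⟨t • z, fun i => ?_⟩
    rw [inner_smul_right]
    have := hz i
    gcongr

lemma Good.translate {n : ι → E 3} {h : ι → ℝ} (hg : Good n h) (x : E 3) :
    Good n (fun i => h i + ⟪n i, x⟫_ℝ) := by
  refine ⟨hg.unit, fun i => ?_, ?_, ?_⟩
  · obtain ⟨y, hy, hy'⟩ := hg.irr i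
    refine ⟨x + y, by rw [inner_add_right, hy]; ring, fun j hj => ?_⟩
    rw [inner_add_right]
    linarith [hy' j hj]
  · rw [Poly_translate n h x]
    obtain ⟨R, hR⟩ := hg.bdd.exists_norm_le
    rw [isBounded_iff_forall_norm_le]
    refine ⟨‖x‖ + R, ?_⟩
    rintro _ ⟨y, hy, rfl⟩
    exact (norm_add_le _ _).trans (by linarith [hR y hy])
  · obtain ⟨z, hz⟩ := hg.slater
    refine ⟨x + z, fun i => ?_⟩
    rw [inner_add_right]
    linarith [hz i]

lemma MM_smul (C : Set (E 3)) {t : ℝ} (ht : 0 ≤ t) :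
    MM ((fun x => t • x) '' C) = ENNReal.ofReal t * MM C := by
  unfold MM
  simp only [wid_smul _ C ht]
  rw [lintegral_const_mul' _ _ ENNReal.ofReal_ne_top]

lemma MM_translate (C : Set (E 3)) (x : E 3) : MM ((fun y => x + y) '' C) = MM C := by
  unfold MM
  simp only [wid_translate]

lemma volume_smul_image (C : Set (E 3)) {t : ℝ} (ht : 0 ≤ t) :
    volume ((fun x : E 3 => t • x) '' C) = ENNReal.ofReal t ^ 3 * volume C := by
  have h1 : (fun x : E 3 => t • x) '' C = t • C := rfl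
  rw [h1, Measure.addHaar_smul, finrank_euclideanSpace_fin, abs_of_nonneg (by positivity),
    ENNReal.ofReal_pow ht]

lemma volume_translate_image (C : Set (E 3)) (x : E 3) :
    volume ((fun y : E 3 => x + y) '' C) = volume C := by
  have h1 : (fun y : E 3 => x + y) '' C = x +ᵥ C := rfl
  rw [h1, measure_vadd]

lemma rat_translate [Fintype ι] (n : ι → E 3) (h : ι → ℝ) (x : E 3) :
    rat n (fun i => h i + ⟪n i, x⟫_ℝ) = rat n h := by
  unfold rat
  rw [Poly_translate, volume_translate_image]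
  simp only [Fac_translate n h x, MM_translate]

lemma rat_smul [Fintype ι] (n : ι → E 3) (h : ι → ℝ) {t : ℝ} (ht : 0 < t) :
    rat n (fun i => t * h i) = rat n h := by
  unfold rat
  rw [Poly_smul n h ht, volume_smul_image _ ht.le]
  simp only [Fac_smul n h ht, MM_smul _ ht.le]
  rw [← Finset.mul_sum, mul_pow]
  have h0 : ENNReal.ofReal t ^ 3 ≠ 0 := by
    apply pow_ne_zero
    simpa using ht
  have h1 : ENNReal.ofReal t ^ 3 ≠ ∞ := ENNReal.pow_ne_top ENNReal.ofReal_ne_top
  rw [ENNReal.mul_div_mul_left _ _ h0 h1]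

lemma rat_reindex [Fintype ι] {κ : Type*} [Fintype κ] (e : κ ≃ ι) (n : ι → E 3) (h : ι → ℝ) :
    rat (n ∘ e) (h ∘ e) = rat n h := by
  have hP : Poly (n ∘ e) (h ∘ e) = Poly n h := by
    ext x
    constructor
    · intro hx i
      have := hx (e.symm i)
      simpa using this
    · intro hx k
      exact hx (e k)
  have hF : ∀ k, Fac (n ∘ e) (h ∘ e) k = Fac n h (e k) := by
    intro k
    unfold Fac
    rw [hP]
    rfl
  unfold rat
  rw [hP]
  simp only [hF]
  rw [Equiv.sum_comp e (fun i => MM (Fac n h i))]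

end Melzak
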