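import Pool.Agent.Helper27.Melzak.Defs

/-!
Widths of compact convex sets in 3-space and their averages.
-/

open MeasureTheory Set Filter Topology
open scoped ENNReal InnerProductSpace

namespace Melzak

/-- Lebesgue measure of the projection of C to the line spanned by u (scaled by the norm of u). -/
noncomputable def wid (u : E 3) (C : Set (E 3)) : ℝ≥0∞ :=
  volume ((fun x : E 3 => ⟪x, u⟫_ℝ) '' C)

/-- Integral of the width over the unit ball of directions. -/
noncomputable def MM (C : Set (E 3)) : ℝ≥0∞ := ∫⁻ u in Metric.ball (0 : E 3) 1, wid u C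

/-- MM of a unit segment. -/
noncomputable def cst : ℝ≥0∞ :=
  ∫⁻ u in Metric.ball (0 : E 3) 1, ENNReal.ofReal |⟪EuclideanSpace.single (0 : Fin 3) (1 : ℝ), u⟫_ℝ|

lemma cst_ne_zero : cst ≠ 0 := by
  set e : E 3 := EuclideanSpace.single (0 : Fin 3) (1 : ℝ) with he
  have hnorm : ‖e‖ = 1 := by simp [he]
  set U : Set (E 3) := Metric.ball (0 : E 3) 1 ∩ {u | (1 / 4 : ℝ) < ⟪e, u⟫_ℝ} with hU
  have hUo : IsOpen U := Metric.isOpen_ball.inter (isOpen_lt continuous_const (by fun_prop))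
  have hUne : U.Nonempty := by
    refine ⟨(1 / 2 : ℝ) • e, ?_, ?_⟩
    · rw [mem_ball_zero_iff, norm_smul, hnorm]; norm_num
    · simp only [mem_ofPred_eq, inner_smul_right, real_inner_self_eq_norm_sq, hnorm]; norm_num
  have hpos : 0 < volume U := hUo.measure_pos volume hUne
  have h1 : ∫⁻ _ in U, ENNReal.ofReal (1 / 4) ≤ cst := by
    calc ∫⁻ _ in U, ENNReal.ofReal (1 / 4) ≤ ∫⁻ u in U, ENNReal.ofReal |⟪e, u⟫_ℝ| := by
          apply setLIntegral_mono' hUo.measurableSet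
          intro u hu
          exact ENNReal.ofReal_le_ofReal ((le_of_lt hu.2).trans (le_abs_self _))
      _ ≤ cst := lintegral_mono_set inter_subset_left
  rw [setLIntegral_const] at h1
  have h2 : 0 < ENNReal.ofReal (1 / 4) * volume U :=
    ENNReal.mul_pos (by norm_num) hpos.ne'
  exact (h2.trans_le h1).ne'

private lemma wd_ball_ne_top : volume (Metric.ball (0 : E 3) 1) ≠ ∞ := measure_ball_lt_top.ne

lemma cst_ne_top : cst ≠ ∞ := by
  have h1 : cst ≤ ∫⁻ _ in Metric.ball (0 : E 3) 1, 1 := by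
    apply setLIntegral_mono' Metric.isOpen_ball.measurableSet
    intro u hu
    rw [← ENNReal.ofReal_one]
    apply ENNReal.ofReal_le_ofReal
    have h2 := abs_real_inner_le_norm (EuclideanSpace.single (0 : Fin 3) (1 : ℝ)) u
    have h3 : ‖(EuclideanSpace.single (0 : Fin 3) (1 : ℝ) : E 3)‖ = 1 := by simp
    rw [h3, one_mul] at h2
    rw [mem_ball_zero_iff] at hu
    exact h2.trans hu.le
  rw [setLIntegral_const, one_mul] at h1
  exact ne_top_of_le_ne_top wd_ball_ne_top h1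

lemma wid_mono {u : E 3} {C D : Set (E 3)} (h : C ⊆ D) : wid u C ≤ wid u D :=
  measure_mono (image_mono h)

lemma MM_mono {C D : Set (E 3)} (h : C ⊆ D) : MM C ≤ MM D :=
  lintegral_mono fun _ => wid_mono h

lemma image_eq_Icc {C : Set (E 3)} (hc : IsCompact C) (hcv : Convex ℝ C) (hne : C.Nonempty)
    (u : E 3) : ∃ a b : ℝ, a ≤ b ∧ (fun x : E 3 => ⟪x, u⟫_ℝ) '' C = Icc a b := by
  have hcont : Continuous fun x : E 3 => ⟪x, u⟫_ℝ := by fun_prop
  have h1 : IsCompact ((fun x : E 3 => ⟪x, u⟫_ℝ) '' C) := hc.image hcont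
  have h2 : IsConnected ((fun x : E 3 => ⟪x, u⟫_ℝ) '' C) :=
    ⟨hne.image _, hcv.isPreconnected.image _ hcont.continuousOn⟩
  have h3 := eq_Icc_of_connected_compact h2 h1
  refine ⟨_, _, ?_, h3⟩
  have h4 : (Icc (sInf ((fun x : E 3 => ⟪x, u⟫_ℝ) '' C))
    (sSup ((fun x : E 3 => ⟪x, u⟫_ℝ) '' C))).Nonempty := by rw [← h3]; exact hne.image _
  exact nonempty_Icc.1 h4

lemma measurable_wid {C : Set (E 3)} (hc : IsCompact C) (hcv : Convex ℝ C) :
    Measurable (fun u => wid u C) := by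
  rcases C.eq_empty_or_nonempty with rfl | hne
  · simp [wid]
  · have h1 : ∀ u : E 3, wid u C = ENNReal.ofReal (sSup ((fun x : E 3 => ⟪x, u⟫_ℝ) '' C) -
        sInf ((fun x : E 3 => ⟪x, u⟫_ℝ) '' C)) := by
      intro u
      obtain ⟨a, b, hab, hI⟩ := image_eq_Icc hc hcv hne u
      unfold wid
      rw [hI, csSup_Icc hab, csInf_Icc hab, Real.volume_Icc]
    simp_rw [h1]
    have hf : Continuous (Function.uncurry fun (u : E 3) (x : E 3) => ⟪x, u⟫_ℝ) := by
      simp only [Function.uncurry_def]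
      fun_prop
    have h2 : Continuous fun u : E 3 => sSup ((fun x : E 3 => ⟪x, u⟫_ℝ) '' C) :=
      hc.continuous_sSup hf
    have h3 : Continuous fun u : E 3 => sInf ((fun x : E 3 => ⟪x, u⟫_ℝ) '' C) :=
      hc.continuous_sInf hf
    exact (ENNReal.continuous_ofReal.comp (h2.sub h3)).measurable

private lemma wd_unit {e : E 3} (he : ‖e‖ = 1) :
    ∫⁻ u in Metric.ball (0 : E 3) 1, ENNReal.ofReal |⟪e, u⟫_ℝ| = cst := by
  set e0 : E 3 := EuclideanSpace.single (0 : Fin 3) (1 : ℝ) with he0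
  have h0 : ‖e0‖ = 1 := by simp [he0]
  set φ : E 3 ≃ₗᵢ[ℝ] E 3 := Submodule.reflection (ℝ ∙ (e0 - e))ᗮ with hφ
  have hφe : φ e0 = e := Submodule.reflection_sub (by rw [h0, he])
  have hmp : MeasurePreserving φ (volume : Measure (E 3)) volume :=
    φ.measurePreserving
  have h1 : φ ⁻¹' (Metric.ball (0 : E 3) 1) = Metric.ball (0 : E 3) 1 := by
    ext x
    simp
  have hmeas : Measurable fun u : E 3 => ENNReal.ofReal |⟪e, u⟫_ℝ| := by fun_prop
  rw [← hmp.setLIntegral_comp_preimage Metric.isOpen_ball.measurableSet hmeas, h1]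
  unfold cst
  apply lintegral_congr
  intro u
  rw [← hφe, LinearIsometryEquiv.inner_map_map]

lemma MM_segment (a b : E 3) : MM (segment ℝ a b) = cst * edist a b := by
  have h1 : ∀ u : E 3, wid u (segment ℝ a b) = ENNReal.ofReal |⟪b - a, u⟫_ℝ| := by
    intro u
    unfold wid
    have h2 : (fun x : E 3 => ⟪x, u⟫_ℝ) '' segment ℝ a b = segment ℝ ⟪a, u⟫_ℝ ⟪b, u⟫_ℝ := by
      have h3 := image_segment ℝ ((innerₛₗ ℝ u).toAffineMap) a b
      have h4 : ∀ x : E 3, (innerₛₗ ℝ u).toAffineMap x = ⟪x, u⟫_ℝ := by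
        intro x
        simp [real_inner_comm]
      rw [h4, h4] at h3
      rw [← h3]
      apply Set.image_congr
      intro x _
      exact (h4 x).symm
    rw [h2, segment_eq_uIcc, Real.volume_interval, inner_sub_left]
  unfold MM
  simp_rw [h1]
  by_cases hab : a = b
  · subst hab
    simp
  · have hn : ‖b - a‖ ≠ 0 := by
      rw [norm_ne_zero_iff, sub_ne_zero]
      exact fun h => hab h.symm
    have hu : ‖(‖b - a‖⁻¹ • (b - a) : E 3)‖ = 1 := by
      rw [norm_smul, norm_inv, norm_norm, inv_mul_cancel₀ hn]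
    have h5 : ∀ u : E 3, ENNReal.ofReal |⟪b - a, u⟫_ℝ| =
        edist a b * ENNReal.ofReal |⟪(‖b - a‖⁻¹ • (b - a) : E 3), u⟫_ℝ| := by
      intro u
      rw [edist_dist, dist_comm, dist_eq_norm, ← ENNReal.ofReal_mul (norm_nonneg _), inner_smul_left]
      congr 1
      rw [abs_mul, ← mul_assoc]
      simp only [map_inv₀, conj_trivial, abs_inv, abs_norm]
      rw [mul_inv_cancel₀ hn, one_mul]
    simp_rw [h5]
    rw [lintegral_const_mul _ (by fun_prop), wd_unit hu, mul_comm]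

private lemma wd_add {A B C : Set (E 3)} (hA : IsCompact A) (hAc : Convex ℝ A) (hAn : A.Nonempty)
    (hB : IsCompact B) (hBc : Convex ℝ B) (hBn : B.Nonempty) {t : ℝ} (ht : 0 ≤ t)
    (h : ∀ a ∈ A, ∀ b ∈ B, a + t • b ∈ C) (u : E 3) :
    wid u A + ENNReal.ofReal t * wid u B ≤ wid u C := by
  obtain ⟨a1, b1, h1, hI1⟩ := image_eq_Icc hA hAc hAn u
  obtain ⟨a2, b2, h2, hI2⟩ := image_eq_Icc hB hBc hBn u
  unfold wid
  rw [hI1, hI2, Real.volume_Icc, Real.volume_Icc, ← ENNReal.ofReal_mul ht,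
    ← ENNReal.ofReal_add (by linarith) (mul_nonneg ht (by linarith))]
  have h3 : Icc (a1 + t * a2) (b1 + t * b2) ⊆ (fun x : E 3 => ⟪x, u⟫_ℝ) '' C := by
    intro s hs
    have h4 : ∃ p ∈ Icc a1 b1, ∃ q ∈ Icc a2 b2, s = p + t * q := by
      by_cases hc : s - t * a2 ≤ b1
      · exact ⟨s - t * a2, ⟨by linarith [hs.1], hc⟩, a2, ⟨le_rfl, h2⟩, by ring⟩
      · push Not at hc
        have htne : t ≠ 0 := by
          rintro rfl
          simp only [zero_mul, add_zero, sub_zero, mem_Icc] at hs hc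
          linarith [hs.2]
        have htpos : 0 < t := lt_of_le_of_ne ht (Ne.symm htne)
        refine ⟨b1, ⟨h1, le_rfl⟩, (s - b1) / t, ⟨?_, ?_⟩, ?_⟩
        · rw [le_div_iff₀ htpos]; linarith
        · rw [div_le_iff₀ htpos]; linarith [hs.2]
        · field_simp; ring
    obtain ⟨p, hp, q, hq, rfl⟩ := h4
    rw [← hI1] at hp
    rw [← hI2] at hq
    obtain ⟨x, hx, rfl⟩ := hp
    obtain ⟨y, hy, rfl⟩ := hq
    refine ⟨x + t • y, h x hx y hy, ?_⟩
    simp only [inner_add_left, inner_smul_left, conj_trivial]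
  calc ENNReal.ofReal (b1 - a1 + t * (b2 - a2))
      = volume (Icc (a1 + t * a2) (b1 + t * b2)) := by rw [Real.volume_Icc]; congr 1; ring
    _ ≤ _ := measure_mono h3

/-- Superadditivity of MM. -/
lemma MM_add {A B C : Set (E 3)} (hA : IsCompact A) (hAc : Convex ℝ A) (hAn : A.Nonempty)
    (hB : IsCompact B) (hBc : Convex ℝ B) (hBn : B.Nonempty) {t : ℝ} (ht : 0 ≤ t)
    (h : ∀ a ∈ A, ∀ b ∈ B, a + t • b ∈ C) :
    MM A + ENNReal.ofReal t * MM B ≤ MM C := by
  unfold MM
  rw [← lintegral_const_mul _ (measurable_wid hB hBc), ← lintegral_add_left (measurable_wid hA hAc)]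
  exact lintegral_mono fun u => wd_add hA hAc hAn hB hBc hBn ht h u

lemma wid_smul (u : E 3) (C : Set (E 3)) {t : ℝ} (ht : 0 ≤ t) :
    wid u ((fun x => t • x) '' C) = ENNReal.ofReal t * wid u C := by
  unfold wid
  have h1 : (fun x : E 3 => ⟪x, u⟫_ℝ) '' ((fun x => t • x) '' C) =
      (fun r : ℝ => t • r) '' ((fun x : E 3 => ⟪x, u⟫_ℝ) '' C) := by
    rw [image_image, image_image]
    apply image_congr
    intro x _
    simp [inner_smul_left]
  rw [h1, image_smul, Measure.addHaar_smul]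
  simp [abs_of_nonneg ht]

lemma wid_translate (u : E 3) (C : Set (E 3)) (x : E 3) :
    wid u ((fun y => x + y) '' C) = wid u C := by
  unfold wid
  have h1 : (fun x : E 3 => ⟪x, u⟫_ℝ) '' ((fun y => x + y) '' C) =
      (fun r : ℝ => ⟪x, u⟫_ℝ + r) '' ((fun x : E 3 => ⟪x, u⟫_ℝ) '' C) := by
    rw [image_image, image_image]
    apply image_congr
    intro y _
    rw [inner_add_left]
  rw [h1, image_add_left, measure_preimage_add]

lemma MM_ne_top {C : Set (E 3)} (h : Bornology.IsBounded C) : MM C ≠ ∞ := by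
  obtain ⟨R, hR⟩ := h.subset_closedBall 0
  have h1 : MM C ≤ ∫⁻ _ in Metric.ball (0 : E 3) 1, ENNReal.ofReal (|R| - (-|R|)) := by
    apply setLIntegral_mono' Metric.isOpen_ball.measurableSet
    intro u hu
    rw [← Real.volume_Icc]
    apply measure_mono
    rintro _ ⟨x, hx, rfl⟩
    simp only
    rw [mem_Icc, ← abs_le]
    have h2 := hR hx
    rw [mem_closedBall_zero_iff] at h2
    rw [mem_ball_zero_iff] at hu
    calc |⟪x, u⟫_ℝ| ≤ ‖x‖ * ‖u‖ := abs_real_inner_le_norm x u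
      _ ≤ R * 1 := mul_le_mul h2 hu.le (norm_nonneg _) ((norm_nonneg _).trans h2)
      _ ≤ |R| := by rw [mul_one]; exact le_abs_self R
  rw [setLIntegral_const] at h1
  exact ne_top_of_le_ne_top (ENNReal.mul_ne_top ENNReal.ofReal_ne_top wd_ball_ne_top) h1

end Melzak
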